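import Mathlib

/-!
# Iterated line graphs: definitions

`LG` is one step of the iteration (exactly as in the frozen statement), `lsz k G` the number of
vertices of the `k`-th iterated line graph, `touch G A` the set of edges that meet `A`, and
`cnt k G A B` the number of vertices of the `k`-th iterated line graph that touch both `A` and `B`.
-/

set_option autoImplicit false

namespace Pool.Agent.Lib.MP_a38fe7_co

/-- One step: a graph is replaced by its line graph. -/
def LG (p : Σ X : Type, SimpleGraph X) : Σ X : Type, SimpleGraph X :=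
  ⟨↥p.2.edgeSet, p.2.lineGraph⟩

/-- The number of vertices of the `k`-th iterated line graph. -/
noncomputable def lsz (k : ℕ) {V : Type} (G : SimpleGraph V) : ℕ := Nat.card (LG^[k] ⟨V, G⟩).1

theorem lsz_zero {V : Type} (G : SimpleGraph V) : lsz 0 G = Nat.card V := rfl

theorem lsz_succ (k : ℕ) {V : Type} (G : SimpleGraph V) : lsz (k + 1) G = lsz k G.lineGraph := rfl

/-- The edges that meet `A`. -/
def touch {V : Type} (G : SimpleGraph V) (A : Set V) : Set G.edgeSet :=
  {e | ∃ a ∈ A, a ∈ (e : Sym2 V)}

/-- The number of vertices of the `k`-th iterated line graph that touch `A` and touch `B`. -/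
noncomputable def cnt : (k : ℕ) → {V : Type} → (G : SimpleGraph V) → (A B : Set V) → ℕ
  | 0, V, _, A, B => Nat.card {v : V // v ∈ A ∧ v ∈ B}
  | k + 1, _, G, A, B => cnt k G.lineGraph (touch G A) (touch G B)

theorem cnt_zero {V : Type} (G : SimpleGraph V) (A B : Set V) :
    cnt 0 G A B = Nat.card {v : V // v ∈ A ∧ v ∈ B} := rfl

theorem cnt_succ (k : ℕ) {V : Type} (G : SimpleGraph V) (A B : Set V) :
    cnt (k + 1) G A B = cnt k G.lineGraph (touch G A) (touch G B) := rfl

/-- The smaller value of `α` at the two endpoints of an edge. -/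
def emin {V : Type} (G : SimpleGraph V) (α : V → ℕ) (e : G.edgeSet) : ℕ :=
  Sym2.lift ⟨fun x y => min (α x) (α y), fun x y => min_comm (α x) (α y)⟩ e.1

theorem emin_mk {V : Type} {G : SimpleGraph V} (α : V → ℕ) {x y : V} (h : s(x, y) ∈ G.edgeSet) :
    emin G α ⟨s(x, y), h⟩ = min (α x) (α y) := rfl

/-- The action of a group of automorphisms on the edges. -/
@[reducible] def edgeAct {V P : Type} [Group P] [MulAction P V] (G : SimpleGraph V)
    (hG : ∀ (p : P) (x y : V), G.Adj x y → G.Adj (p • x) (p • y)) : MulAction P G.edgeSet where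
  smul p e := ⟨Sym2.map (fun x => p • x) e.1, by
    obtain ⟨e, he⟩ := e
    induction e with
    | _ x y => exact hG p x y he⟩
  one_smul e := by
    apply Subtype.ext
    obtain ⟨e, he⟩ := e
    induction e with
    | _ x y =>
      show Sym2.map (fun x => (1 : P) • x) s(x, y) = s(x, y)
      simp
  mul_smul p q e := by
    apply Subtype.ext
    obtain ⟨e, he⟩ := e
    induction e with
    | _ x y =>
      show Sym2.map (fun x => (p * q) • x) s(x, y) =
        Sym2.map (fun x => p • x) (Sym2.map (fun x => q • x) s(x, y))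
      simp [mul_smul]

/-- `Fx P G A p`: adjacent vertices that are both fixed by `p` are not in `A`. -/
def Fx {V P : Type} [Group P] [MulAction P V] (G : SimpleGraph V) (A : Set V) (p : P) : Prop :=
  ∀ x y : V, G.Adj x y → p • x = x → p • y = y → x ∉ A ∧ y ∉ A

/-- Copies of the graph `R` with root `ρ`, one for each `x : X`, attached to `C`: the root of the
copy with index `x` is joined to the vertex `ℓ x` of `C`. -/
def att {V W X : Type} (C : SimpleGraph V) (R : SimpleGraph W) (ρ : W) (ℓ : X → V) :
    SimpleGraph (V ⊕ X × W) where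
  Adj
    | .inl v, .inl v' => C.Adj v v'
    | .inl v, .inr xw => ℓ xw.1 = v ∧ xw.2 = ρ
    | .inr xw, .inl v => ℓ xw.1 = v ∧ xw.2 = ρ
    | .inr xw, .inr xw' => xw.1 = xw'.1 ∧ R.Adj xw.2 xw'.2
  symm := ⟨by
    rintro (v | xw) (v' | xw') h
    · exact C.symm.symm _ _ h
    · exact h
    · exact h
    · exact ⟨h.1.symm, R.symm.symm _ _ h.2⟩⟩
  loopless := ⟨by
    rintro (v | xw) h
    · exact C.loopless.irrefl _ h
    · exact R.loopless.irrefl _ h.2⟩

end Pool.Agent.Lib.MP_a38fe7_co
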