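import Mathlib
import Pool.Agent.Lib.MP_a38fe7_co.Defs

section

section

/-!
# Divisibility from a group of automorphisms

Let the finite group `P` act on the graph `G` by automorphisms, let `A`, `B` be `P`-invariant sets of
vertices, and assume that for each `p ≠ 1` one of the following holds: no two adjacent vertices fixed by
`p` have a member in `A`; the same for `B`. Then `|P|` divides `2 * cnt (k + 1) G A B`.

Proof. Induction on `k`, for all `V`, `G`, `A`, `B` and all actions.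
Step (`k + 1` from `k`): apply the induction hypothesis to the line graph with the action `edgeAct G hG`
(use `letI`), and the sets `touch G A`, `touch G B`. The action preserves adjacency in the line graph and
the sets are invariant. `Fx` is inherited (`fx_lineGraph`): let `e`, `e'` be adjacent edges fixed by `p`,
`e = s(c, x)`, `e' = s(c, y)`, `x ≠ y`. From `s(p c, p x) = s(c, x)` and `s(p c, p y) = s(c, y)` one gets
`p c = c` (otherwise `p c = x` and (`p c = c` or `p c = y`), contradiction with `c ≠ x`, `x ≠ y`), hence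
`p x = x`, `p y = y`. By `Fx G A p`: `c, x, y ∉ A`, so `e, e' ∉ touch G A`.
Base (`k = 0`): `cnt 1 G A B` is the number of edges `e` that meet `A` and meet `B`; `P` acts on this set
`E`. The stabiliser of `e = s(x, y)` has order at most `2`: the map `p ↦ p • x` from the stabiliser to
`{x, y}` is injective (if `p x = r x` then `p⁻¹ r` fixes `x` and `e`, hence `y`, so it is `1` by the
hypothesis, because `e` meets `A` and `B`). `MulAction.card_eq_sum_card_group_div_card_stabilizer` gives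
`|E| = ∑ |P| / |stab|` over the orbits, and `2 * (|P| / |stab|)` is a multiple of `|P|`.
-/

set_option autoImplicit false

namespace Pool.Agent.Lib.MP_a38fe7_co

theorem fx_lineGraph {V P : Type} [Group P] [inst : MulAction P V] (G : SimpleGraph V)
    (hG : ∀ (p : P) (x y : V), G.Adj x y → G.Adj (p • x) (p • y)) (A : Set V) (p : P)
    (h : Fx G A p) : @Fx G.edgeSet P _ (edgeAct G hG) G.lineGraph (touch G A) p := by
  rintro ⟨e, he⟩ ⟨e', he'⟩ hadj h1 h2
  rw [SimpleGraph.lineGraph_adj_iff_exists] at hadj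
  obtain ⟨hne, c, hc, hc'⟩ := hadj
  obtain ⟨x, rfl⟩ := hc
  obtain ⟨y, rfl⟩ := hc'
  have hcx : G.Adj c x := he
  have hcy : G.Adj c y := he'
  have hxy : x ≠ y := fun h' => hne (by subst h'; rfl)
  have h3 : s(p • c, p • x) = s(c, x) := congrArg Subtype.val h1
  have h4 : s(p • c, p • y) = s(c, y) := congrArg Subtype.val h2
  rw [Sym2.eq_iff] at h3 h4
  have h5 : p • c = c ∧ p • x = x ∧ p • y = y := by
    rcases h3 with ⟨a1, a2⟩ | ⟨a1, a2⟩
    · rcases h4 with ⟨b1, b2⟩ | ⟨b1, b2⟩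
      · exact ⟨a1, a2, b2⟩
      · exact absurd (a1.symm.trans b1) hcy.ne
    · rcases h4 with ⟨b1, b2⟩ | ⟨b1, b2⟩
      · exact absurd (b1.symm.trans a1) hcx.ne
      · exact absurd (a1.symm.trans b1) hxy
  obtain ⟨h6, h7, h8⟩ := h5
  have h9 := h c x hcx h6 h7
  have h10 := h c y hcy h6 h8
  constructor
  · rintro ⟨a, ha, hae⟩
    rcases Sym2.mem_iff.mp hae with rfl | rfl
    · exact h9.1 ha
    · exact h9.2 ha
  · rintro ⟨a, ha, hae⟩
    rcases Sym2.mem_iff.mp hae with rfl | rfl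
    · exact h10.1 ha
    · exact h10.2 ha

private theorem dvd_of_stab_le {E P : Type} [Finite E] [Group P] [Finite P] [MulAction P E]
    (h : ∀ e : E, Nat.card (MulAction.stabilizer P e) ≤ 2) : Nat.card P ∣ 2 * Nat.card E := by
  classical
  have e1 := Nat.card_congr (MulAction.selfEquivSigmaOrbits P E)
  have : Fintype (MulAction.orbitRel.Quotient P E) := Fintype.ofFinite _
  rw [e1, Nat.card_sigma, Finset.mul_sum]
  refine Finset.dvd_sum fun ω _ => ?_
  have h1 := MulAction.index_stabilizer P ω.out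
  have h2 := (MulAction.stabilizer P ω.out).card_mul_index
  rw [h1] at h2
  have h3 : Nat.card (MulAction.orbit P ω.out) = (MulAction.orbit P ω.out).ncard := rfl
  rw [h3, ← h2]
  refine mul_dvd_mul_right ?_ _
  have h4 := h ω.out
  have h5 : 0 < Nat.card (MulAction.stabilizer P ω.out) := Nat.card_pos
  interval_cases (Nat.card (MulAction.stabilizer P ω.out))
  · exact one_dvd 2
  · exact dvd_refl 2

private theorem edgeAct_mem {V P : Type} [Group P] [MulAction P V] (G : SimpleGraph V)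
    (hG : ∀ (p : P) (x y : V), G.Adj x y → G.Adj (p • x) (p • y)) (p : P) (e : G.edgeSet) (v : V)
    (h : v ∈ (e : Sym2 V)) :
    p • v ∈ ((@HSMul.hSMul P G.edgeSet G.edgeSet
      (@instHSMul P G.edgeSet (edgeAct G hG).toSMul) p e : G.edgeSet) : Sym2 V) :=
  Sym2.mem_map.mpr ⟨v, h, rfl⟩

theorem dvd_two_mul_cnt (k : ℕ) {V P : Type} [Finite V] [Group P] [Finite P] [MulAction P V]
    (G : SimpleGraph V) (hG : ∀ (p : P) (x y : V), G.Adj x y → G.Adj (p • x) (p • y))
    (A B : Set V) (hA : ∀ (p : P) (x : V), x ∈ A → p • x ∈ A)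
    (hB : ∀ (p : P) (x : V), x ∈ B → p • x ∈ B)
    (hF : ∀ p : P, p ≠ 1 → Fx G A p ∨ Fx G B p) :
    Nat.card P ∣ 2 * cnt (k + 1) G A B := by
  induction k generalizing V with
  | zero =>
    let act0 := edgeAct G hG
    have tA : ∀ (S : Set V), (∀ (p : P) (x : V), x ∈ S → p • x ∈ S) → ∀ (p : P) (e : G.edgeSet),
        e ∈ touch G S → p • e ∈ touch G S := by
      rintro S hS p e ⟨a, ha, hae⟩
      exact ⟨p • a, hS p a ha, edgeAct_mem G hG p e a hae⟩
    let act : MulAction P {e : G.edgeSet // e ∈ touch G A ∧ e ∈ touch G B} :=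
      { smul := fun p e => ⟨p • e.1, tA A hA p e.1 e.2.1, tA B hB p e.1 e.2.2⟩
        one_smul := fun e => Subtype.ext (one_smul P e.1)
        mul_smul := fun p q e => Subtype.ext (mul_smul p q e.1) }
    rw [cnt_succ, cnt_zero]
    refine dvd_of_stab_le fun e => ?_
    obtain ⟨⟨e, he⟩, ⟨hea, heb⟩⟩ := e
    induction e with
    | _ x y =>
      have hxy : G.Adj x y := he
      have hst : ∀ p : P, p ∈ MulAction.stabilizer P (⟨⟨s(x, y), he⟩, ⟨hea, heb⟩⟩ :
          {e : G.edgeSet // e ∈ touch G A ∧ e ∈ touch G B}) →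
          (p • x = x ∧ p • y = y) ∨ (p • x = y ∧ p • y = x) := by
        intro p hp
        have h1 : s(p • x, p • y) = s(x, y) :=
          congrArg (fun z => (z.1.1 : Sym2 V)) (MulAction.mem_stabilizer_iff.mp hp)
        exact Sym2.eq_iff.mp h1
      have hone : ∀ q : P, q • x = x → q • y = y → q = 1 := by
        intro q h1 h2
        by_contra hq
        rcases hF q hq with h3 | h3
        · obtain ⟨a, ha, hae⟩ := hea
          have h4 := h3 x y hxy h1 h2
          rcases Sym2.mem_iff.mp hae with rfl | rfl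
          · exact h4.1 ha
          · exact h4.2 ha
        · obtain ⟨a, ha, hae⟩ := heb
          have h4 := h3 x y hxy h1 h2
          rcases Sym2.mem_iff.mp hae with rfl | rfl
          · exact h4.1 ha
          · exact h4.2 ha
      classical
      refine le_trans (Nat.card_le_card_of_injective
        (fun p : MulAction.stabilizer P (⟨⟨s(x, y), he⟩, ⟨hea, heb⟩⟩ :
          {e : G.edgeSet // e ∈ touch G A ∧ e ∈ touch G B}) => decide ((p : P) • x = x)) ?_)
        (le_of_eq (by simp : Nat.card Bool = 2))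
      rintro ⟨p, hp⟩ ⟨r, hr⟩ h
      have h1 : (p • x = x) ↔ (r • x = x) := by simpa using h
      have h2 : p • x = r • x ∧ p • y = r • y := by
        rcases hst p hp with ⟨a1, a2⟩ | ⟨a1, a2⟩ <;> rcases hst r hr with ⟨b1, b2⟩ | ⟨b1, b2⟩
        · exact ⟨a1.trans b1.symm, a2.trans b2.symm⟩
        · exact absurd ((h1.mp a1).symm.trans b1) hxy.ne
        · exact absurd ((h1.mpr b1).symm.trans a1) hxy.ne
        · exact ⟨a1.trans b1.symm, a2.trans b2.symm⟩
      have h3 := hone (r⁻¹ * p) (by rw [mul_smul, h2.1, inv_smul_smul])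
        (by rw [mul_smul, h2.2, inv_smul_smul])
      apply Subtype.ext
      exact (inv_mul_eq_one.mp h3).symm
  | succ k ih =>
    rw [cnt_succ]
    let act0 := edgeAct G hG
    have tA : ∀ (S : Set V), (∀ (p : P) (x : V), x ∈ S → p • x ∈ S) → ∀ (p : P) (e : G.edgeSet),
        e ∈ touch G S → p • e ∈ touch G S := by
      rintro S hS p e ⟨a, ha, hae⟩
      exact ⟨p • a, hS p a ha, edgeAct_mem G hG p e a hae⟩
    refine ih G.lineGraph ?_ (touch G A) (touch G B) (tA A hA) (tA B hB) ?_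
    · intro p e e' hadj
      rw [SimpleGraph.lineGraph_adj_iff_exists] at hadj ⊢
      obtain ⟨hne, c, hc, hc'⟩ := hadj
      exact ⟨fun h => hne (MulAction.injective p h), p • c, edgeAct_mem G hG p e c hc,
        edgeAct_mem G hG p e' c hc'⟩
    · intro p hp
      rcases hF p hp with h | h
      · exact Or.inl (fx_lineGraph G hG A p h)
      · exact Or.inr (fx_lineGraph G hG B p h)

end Pool.Agent.Lib.MP_a38fe7_co
end

section

/-!
# Isomorphic graphs have the same `lsz`
-/

set_option autoImplicit false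

namespace Pool.Agent.Lib.MP_a38fe7_co

private theorem iso_mem {V W : Type} {G : SimpleGraph V} {H : SimpleGraph W} (f : G ≃g H)
    (e : G.edgeSet) (v : V) : f v ∈ (f.mapEdgeSet e : Sym2 W) ↔ v ∈ (e : Sym2 V) := by
  obtain ⟨e, he⟩ := e
  show f v ∈ Sym2.map f e ↔ v ∈ e
  rw [Sym2.mem_map]
  constructor
  · rintro ⟨a, ha, hav⟩
    rwa [← f.injective hav]
  · intro h
    exact ⟨v, h, rfl⟩

/-- An isomorphism of graphs gives an isomorphism of the line graphs. -/
theorem exists_lgIso {V W : Type} {G : SimpleGraph V} {H : SimpleGraph W} (f : G ≃g H) :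
    Nonempty (G.lineGraph ≃g H.lineGraph) := by
  refine ⟨⟨f.mapEdgeSet, ?_⟩⟩
  intro a b
  show (H.lineGraph.Adj (f.mapEdgeSet a) (f.mapEdgeSet b)) ↔ G.lineGraph.Adj a b
  rw [SimpleGraph.lineGraph_adj_iff_exists, SimpleGraph.lineGraph_adj_iff_exists]
  refine and_congr (not_congr f.mapEdgeSet.injective.eq_iff) ?_
  constructor
  · rintro ⟨w, h1, h2⟩
    obtain ⟨v, rfl⟩ := f.surjective w
    exact ⟨v, (iso_mem f a v).1 h1, (iso_mem f b v).1 h2⟩
  · rintro ⟨v, h1, h2⟩
    exact ⟨f v, (iso_mem f a v).2 h1, (iso_mem f b v).2 h2⟩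

/-- By induction on `k` from `exists_lgIso` (`lsz_zero`: `Nat.card_congr`). -/
theorem lsz_iso (k : ℕ) {V W : Type} {G : SimpleGraph V} {H : SimpleGraph W} (f : G ≃g H) :
    lsz k G = lsz k H := by
  induction k generalizing V W with
  | zero =>
    rw [lsz_zero, lsz_zero]
    exact Nat.card_congr f.toEquiv
  | succ k ih =>
    obtain ⟨g⟩ := exists_lgIso f
    rw [lsz_succ, lsz_succ]
    exact ih g

end Pool.Agent.Lib.MP_a38fe7_co
end

section

/-!
# Inclusion and exclusion for the vertices of the iterated line graph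
-/

set_option autoImplicit false

namespace Pool.Agent.Lib.MP_a38fe7_co

/-- The edge of `G` that comes from an edge of `G.induce Aᶜ`. -/
private def ieMap {V : Type} (G : SimpleGraph V) (A : Set V) (e : (G.induce Aᶜ).edgeSet) :
    ((touch G A)ᶜ : Set G.edgeSet) :=
  ⟨⟨Sym2.map (fun x : (Aᶜ : Set V) => (x : V)) e.1, by
    obtain ⟨e, he⟩ := e
    induction e with
    | _ x y => exact he⟩, by
    rintro ⟨a, ha, hae⟩
    obtain ⟨b, -, hb⟩ := Sym2.mem_map.mp hae
    exact b.2 (hb ▸ ha)⟩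

private theorem mem_ieMap {V : Type} (G : SimpleGraph V) (A : Set V) (e : (G.induce Aᶜ).edgeSet)
    (v : V) : v ∈ (((ieMap G A e).1 : G.edgeSet) : Sym2 V) ↔
      ∃ h : v ∈ Aᶜ, (⟨v, h⟩ : (Aᶜ : Set V)) ∈ (e : Sym2 (Aᶜ : Set V)) := by
  show v ∈ Sym2.map (fun x : (Aᶜ : Set V) => (x : V)) e.1 ↔ _
  rw [Sym2.mem_map]
  constructor
  · rintro ⟨b, hb, rfl⟩
    exact ⟨b.2, hb⟩
  · rintro ⟨h, hb⟩
    exact ⟨_, hb, rfl⟩

private theorem ieMap_bijective {V : Type} (G : SimpleGraph V) (A : Set V) :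
    Function.Bijective (ieMap G A) := by
  constructor
  · intro e e' h
    have h1 : Sym2.map (fun x : (Aᶜ : Set V) => (x : V)) e.1 =
        Sym2.map (fun x : (Aᶜ : Set V) => (x : V)) e'.1 :=
      congrArg (fun z => (z.1 : Sym2 V)) h
    exact Subtype.ext (Sym2.map.injective Subtype.val_injective h1)
  · rintro ⟨⟨e, he⟩, ht⟩
    induction e with
    | _ x y =>
      have hx : x ∈ Aᶜ := fun h => ht ⟨x, h, Sym2.mem_mk_left x y⟩
      have hy : y ∈ Aᶜ := fun h => ht ⟨y, h, Sym2.mem_mk_right x y⟩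
      exact ⟨⟨s(⟨x, hx⟩, ⟨y, hy⟩), he⟩, rfl⟩

/-- The part of the line graph that does not touch `A` is the line graph of the graph without `A`.

Proof. An edge of `G` that does not meet `A` is an edge of `G.induce Aᶜ` and conversely; adjacency in
both line graphs means different with a common endpoint. -/
theorem exists_induceLG {V : Type} (G : SimpleGraph V) (A : Set V) :
    Nonempty (G.lineGraph.induce (touch G A)ᶜ ≃g (G.induce Aᶜ).lineGraph) := by
  refine ⟨SimpleGraph.Iso.symm ⟨Equiv.ofBijective (ieMap G A) (ieMap_bijective G A), ?_⟩⟩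
  intro e e'
  show G.lineGraph.Adj (ieMap G A e).1 (ieMap G A e').1 ↔ (G.induce Aᶜ).lineGraph.Adj e e'
  rw [SimpleGraph.lineGraph_adj_iff_exists, SimpleGraph.lineGraph_adj_iff_exists]
  refine and_congr (not_congr ?_) ?_
  · rw [Subtype.val_injective.eq_iff]
    exact (ieMap_bijective G A).1.eq_iff
  · simp only [mem_ieMap]
    constructor
    · rintro ⟨v, ⟨h1, h2⟩, ⟨h3, h4⟩⟩
      exact ⟨⟨v, h1⟩, h2, h4⟩
    · rintro ⟨v, h1, h2⟩
      exact ⟨v, ⟨v.2, h1⟩, ⟨v.2, h2⟩⟩

private theorem touch_union {V : Type} (G : SimpleGraph V) (A B : Set V) :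
    touch G (A ∪ B) = touch G A ∪ touch G B := by
  ext e
  constructor
  · rintro ⟨a, ha | ha, h⟩
    · exact Or.inl ⟨a, ha, h⟩
    · exact Or.inr ⟨a, ha, h⟩
  · rintro (⟨a, ha, h⟩ | ⟨a, ha, h⟩)
    · exact ⟨a, Or.inl ha, h⟩
    · exact ⟨a, Or.inr ha, h⟩

/-- Inclusion and exclusion. Proof by induction on `k`, for all `V`, `G`, `A`, `B`. For `k = 0` this is
`|V| + |V \ (A ∪ B)| = |V \ A| + |V \ B| + |A ∩ B|`. Step: `touch G (A ∪ B) = touch G A ∪ touch G B`,
`exists_induceLG` and `lsz_iso`. -/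
theorem incl_excl (k : ℕ) {V : Type} [Finite V] (G : SimpleGraph V) (A B : Set V) :
    lsz k G + lsz k (G.induce (A ∪ B)ᶜ) =
      lsz k (G.induce Aᶜ) + lsz k (G.induce Bᶜ) + cnt k G A B := by
  induction k generalizing V with
  | zero =>
    rw [lsz_zero, lsz_zero, lsz_zero, lsz_zero, cnt_zero]
    have h1 := Set.ncard_union_add_ncard_inter Aᶜ Bᶜ
    have h2 := Set.ncard_add_ncard_compl (A ∩ B)
    rw [← Set.compl_inter, ← Set.compl_union] at h1
    have h3 : Nat.card {v : V // v ∈ A ∧ v ∈ B} = (A ∩ B).ncard := rfl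
    have h4 : ∀ S : Set V, Nat.card S = S.ncard := fun S => rfl
    rw [h3, h4, h4, h4]
    omega
  | succ k ih =>
    obtain ⟨f⟩ := exists_induceLG G (A ∪ B)
    obtain ⟨f1⟩ := exists_induceLG G A
    obtain ⟨f2⟩ := exists_induceLG G B
    rw [lsz_succ, lsz_succ, lsz_succ, lsz_succ, cnt_succ, ← lsz_iso k f, ← lsz_iso k f1,
      ← lsz_iso k f2, touch_union]
    exact ih G.lineGraph (touch G A) (touch G B)

end Pool.Agent.Lib.MP_a38fe7_co
end

section

/-!
# Isomorphisms of graphs with attached copies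
-/

set_option autoImplicit false

namespace Pool.Agent.Lib.MP_a38fe7_co

/-- An isomorphism of the base graphs and a bijection of the indices of the copies. -/
theorem lsz_att_congr (k : ℕ) {V V' W X X' : Type} {C : SimpleGraph V} {C' : SimpleGraph V'}
    (f : C ≃g C') (R : SimpleGraph W) (ρ : W) (e : X ≃ X') (ℓ : X → V) (ℓ' : X' → V')
    (h : ∀ x, ℓ' (e x) = f (ℓ x)) : lsz k (att C R ρ ℓ) = lsz k (att C' R ρ ℓ') := by
  refine lsz_iso k ⟨Equiv.sumCongr f.toEquiv (Equiv.prodCongr e (Equiv.refl W)), ?_⟩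
  rintro (v | ⟨x, w⟩) (v' | ⟨x', w'⟩)
  · exact f.map_rel_iff
  · show (ℓ' (e x') = f v ∧ w' = ρ) ↔ (ℓ x' = v ∧ w' = ρ)
    rw [h, f.injective.eq_iff]
  · show (ℓ' (e x) = f v' ∧ w = ρ) ↔ (ℓ x = v' ∧ w = ρ)
    rw [h, f.injective.eq_iff]
  · show (e x = e x' ∧ R.Adj w w') ↔ (x = x' ∧ R.Adj w w')
    rw [e.injective.eq_iff]

private def delMap {V W X : Type} (D : Set (V ⊕ X × W)) (S : Set V) (Y : Set X)
    (hD1 : ∀ v, Sum.inl v ∈ D ↔ v ∈ S) (hD2 : ∀ x w, Sum.inr (x, w) ∈ D ↔ x ∈ Y) :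
    ↥Sᶜ ⊕ ↥Yᶜ × W → ↥Dᶜ
  | .inl v => ⟨.inl v.1, fun h => v.2 ((hD1 v.1).1 h)⟩
  | .inr xw => ⟨.inr (xw.1.1, xw.2), fun h => xw.1.2 ((hD2 _ _).1 h)⟩

/-- Deleting the vertices of the base in `S` and the copies with index in `Y`, where all other copies
are attached outside `S`. -/
theorem lsz_att_delete (k : ℕ) {V W X : Type} (C : SimpleGraph V) (R : SimpleGraph W) (ρ : W)
    (ℓ : X → V) (D : Set (V ⊕ X × W)) (S : Set V) (Y : Set X)
    (hD1 : ∀ v, Sum.inl v ∈ D ↔ v ∈ S) (hD2 : ∀ x w, Sum.inr (x, w) ∈ D ↔ x ∈ Y)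
    (h : ∀ x : ↥Yᶜ, ℓ x.1 ∈ Sᶜ) :
    lsz k ((att C R ρ ℓ).induce Dᶜ) =
      lsz k (att (C.induce Sᶜ) R ρ (fun x : ↥Yᶜ => (⟨ℓ x.1, h x⟩ : ↥Sᶜ))) := by
  symm
  have hbij : Function.Bijective (delMap (W := W) D S Y hD1 hD2) := by
    constructor
    · rintro (v | ⟨x, w⟩) (v' | ⟨x', w'⟩) hab
      · have h1 : (Sum.inl v.1 : V ⊕ X × W) = Sum.inl v'.1 := congrArg Subtype.val hab
        exact congrArg Sum.inl (Subtype.ext (Sum.inl_injective h1))
      · exact absurd (congrArg Subtype.val hab) Sum.inl_ne_inr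
      · exact absurd (congrArg Subtype.val hab) Sum.inr_ne_inl
      · have h1 : (Sum.inr (x.1, w) : V ⊕ X × W) = Sum.inr (x'.1, w') := congrArg Subtype.val hab
        have h2 := Sum.inr_injective h1
        have h3 : x.1 = x'.1 := congrArg Prod.fst h2
        have h4 : w = w' := congrArg Prod.snd h2
        rw [Subtype.ext h3, h4]
    · rintro ⟨(v | ⟨x, w⟩), hv⟩
      · exact ⟨Sum.inl ⟨v, fun h1 => hv ((hD1 v).2 h1)⟩, rfl⟩
      · exact ⟨Sum.inr (⟨x, fun h1 => hv ((hD2 x w).2 h1)⟩, w), rfl⟩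
  refine lsz_iso k ⟨Equiv.ofBijective _ hbij, ?_⟩
  rintro (v | ⟨x, w⟩) (v' | ⟨x', w'⟩)
  · exact Iff.rfl
  · show (ℓ x'.1 = v.1 ∧ w' = ρ) ↔ ((⟨ℓ x'.1, h x'⟩ : ↥Sᶜ) = v ∧ w' = ρ)
    rw [Subtype.ext_iff]
  · show (ℓ x.1 = v'.1 ∧ w = ρ) ↔ ((⟨ℓ x.1, h x⟩ : ↥Sᶜ) = v' ∧ w = ρ)
    rw [Subtype.ext_iff]
  · show (x.1 = x'.1 ∧ R.Adj w w') ↔ (x = x' ∧ R.Adj w w')
    rw [Subtype.ext_iff]

/-- No copies: the graph is `C`. -/
theorem lsz_att_empty (k : ℕ) {V W X : Type} [IsEmpty X] (C : SimpleGraph V) (R : SimpleGraph W)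
    (ρ : W) (ℓ : X → V) : lsz k (att C R ρ ℓ) = lsz k C := by
  refine lsz_iso k ⟨Equiv.sumEmpty V (X × W), ?_⟩
  rintro (v | ⟨x, w⟩) (v' | ⟨x', w'⟩)
  · exact Iff.rfl
  · exact isEmptyElim x'
  · exact isEmptyElim x
  · exact isEmptyElim x

/-- `m v` copies attached at each vertex `v`. -/
noncomputable def fk (k : ℕ) {V W : Type} (C : SimpleGraph V) (R : SimpleGraph W) (ρ : W)
    (m : V → ℕ) : ℕ :=
  lsz k (att C R ρ (fun x : (Σ v : V, Fin (m v)) => x.1))

/-- Only the number of copies attached at each vertex matters.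

Proof. `X ≃ Σ v, {x // ℓ x = v}` (`Equiv.sigmaFiberEquiv ℓ`) and `{x // ℓ x = v} ≃ Fin (m v)`
(`Finite.equivFinOfCardEq`); `lsz_att_congr` with the identity of `C`. -/
theorem lsz_att_eq_fk (k : ℕ) {V W X : Type} [Finite X] (C : SimpleGraph V) (R : SimpleGraph W)
    (ρ : W) (ℓ : X → V) (m : V → ℕ) (hm : ∀ v, Nat.card {x : X // ℓ x = v} = m v) :
    lsz k (att C R ρ ℓ) = fk k C R ρ m := by
  unfold fk
  exact lsz_att_congr k SimpleGraph.Iso.refl R ρ
    ((Equiv.sigmaFiberEquiv ℓ).symm.trans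
      (Equiv.sigmaCongrRight fun v => Finite.equivFinOfCardEq (hm v))) _ _ (fun x => rfl)

theorem fk_zero_fun (k : ℕ) {V W : Type} (C : SimpleGraph V) (R : SimpleGraph W) (ρ : W) :
    fk k C R ρ 0 = lsz k C := by
  unfold fk
  have : IsEmpty (Σ v : V, Fin ((0 : V → ℕ) v)) := ⟨fun x => Fin.elim0 x.2⟩
  exact lsz_att_empty k C R ρ _

end Pool.Agent.Lib.MP_a38fe7_co
end
end

section

section

/-!
# Congruences for the number of vertices when copies are attached

`interplay`: the vertices of the iterated line graph that touch a group of `q` copies and a pair of copies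
are divisible in number by `q`. Proof. Let `P = Multiplicative (ZMod q)`, `Q = Multiplicative (ZMod 2)` and
`X = (Σ v, Fin (m v)) ⊕ (P ⊕ Q)` with `ℓ = Sum.elim (·.1) (Sum.elim (fun _ => v) (fun _ => v'))`. The group
`P × Q` acts on `V ⊕ X × W`: trivially on `V` and on the copies from `m`; on the copies with index in `P`
(`Q`) by multiplication of the index. This preserves `att C R ρ ℓ`. Let `A` (`B`) be the set of vertices of
the copies with index in `P` (`Q`). For `(p, r) ≠ 1`: if `p ≠ 1` no vertex of `A` is fixed, otherwise `r ≠ 1`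
and no vertex of `B` is fixed. So `dvd_two_mul_cnt` gives `2 q ∣ 2 * cnt (k + 1) _ A B`, and `incl_excl`
together with `lsz_att_delete` and `lsz_att_eq_fk` (four times) gives the claim.

`single_dvd`: the same with `P` alone and `B = A`: `q ∣ 2 * cnt (k + 1) _ A A`.
-/

set_option autoImplicit false

namespace Pool.Agent.Lib.MP_a38fe7_co

/-- the action on the graph with attached copies given by an action on the indices -/
@[reducible] private def attAct {V W X Γ : Type} [Group Γ] (f : Γ →* Equiv.Perm X) :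
    MulAction Γ (V ⊕ X × W) where
  smul g := Sum.map id (Prod.map (f g) id)
  one_smul z := by
    change Sum.map id (Prod.map (f 1) id) z = z
    rcases z with v | ⟨x, w⟩ <;> simp
  mul_smul g h z := by
    change Sum.map id (Prod.map (f (g * h)) id) z =
      Sum.map id (Prod.map (f g) id) (Sum.map id (Prod.map (f h) id) z)
    rcases z with v | ⟨x, w⟩ <;> simp

private theorem attAct_adj {V W X : Type} (C : SimpleGraph V) (R : SimpleGraph W)
    (ρ : W) (ℓ : X → V) (σ : Equiv.Perm X) (h : ∀ x, ℓ (σ x) = ℓ x) (z z' : V ⊕ X × W)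
    (ha : (att C R ρ ℓ).Adj z z') :
    (att C R ρ ℓ).Adj (Sum.map id (Prod.map σ id) z) (Sum.map id (Prod.map σ id) z') := by
  rcases z with v | ⟨x, w⟩ <;> rcases z' with v' | ⟨x', w'⟩
  · exact ha
  · exact ⟨(h x').trans ha.1, ha.2⟩
  · exact ⟨(h x).trans ha.1, ha.2⟩
  · exact ⟨congrArg σ ha.1, ha.2⟩

/-- left multiplication on the last two summands -/
private def xHom (Y P Q : Type) [Group P] [Group Q] : P × Q →* Equiv.Perm (Y ⊕ (P ⊕ Q)) where
  toFun g := Equiv.sumCongr (Equiv.refl Y) (Equiv.sumCongr (Equiv.mulLeft g.1) (Equiv.mulLeft g.2))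
  map_one' := by
    ext x
    rcases x with y | p | r <;> simp
  map_mul' g h := by
    ext x
    rcases x with y | p | r <;> simp [mul_assoc]

private theorem lsz_del (k : ℕ) {V W X : Type} [Finite X] (C : SimpleGraph V) (R : SimpleGraph W)
    (ρ : W) (ℓ : X → V) (D : Set (V ⊕ X × W)) (Y : Set X) (hD1 : ∀ v, Sum.inl v ∉ D)
    (hD2 : ∀ x w, Sum.inr (x, w) ∈ D ↔ x ∈ Y) (m : V → ℕ)
    (hm : ∀ u, Nat.card {x : X // x ∉ Y ∧ ℓ x = u} = m u) :
    lsz k ((att C R ρ ℓ).induce Dᶜ) = fk k C R ρ m := by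
  rw [lsz_att_delete k C R ρ ℓ D ∅ Y (fun v => ⟨fun h => absurd h (hD1 v), fun h => h.elim⟩) hD2
    (fun x => fun h => h.elim)]
  let f : C.induce (∅ : Set V)ᶜ ≃g C :=
    { toFun := fun x => x.1
      invFun := fun v => ⟨v, fun h => h.elim⟩
      left_inv := fun x => rfl
      right_inv := fun v => rfl
      map_rel_iff' := Iff.rfl }
  rw [lsz_att_congr k f R ρ (Equiv.refl ↥Yᶜ) _ (fun x : ↥Yᶜ => ℓ x.1) (fun x => rfl)]
  refine lsz_att_eq_fk k C R ρ _ m fun u => ?_
  rw [← hm u]
  refine Nat.card_congr ⟨fun x => ⟨x.1.1, x.1.2, x.2⟩, fun x => ⟨⟨x.1, x.2.1⟩, x.2.2⟩,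
    fun x => rfl, fun x => rfl⟩

private theorem card_sum_part {A B : Type} [Finite A] [Finite B] (p : A ⊕ B → Prop) :
    Nat.card {x : A ⊕ B // p x} = Nat.card {a : A // p (.inl a)} + Nat.card {b : B // p (.inr b)} := by
  rw [Nat.card_congr Equiv.subtypeSum, Nat.card_sum]

private theorem card_const {A : Type} (p : Prop) [Decidable p] :
    Nat.card {_a : A // p} = if p then Nat.card A else 0 := by
  split_ifs with h
  · exact Nat.card_congr ⟨fun x => x.1, fun x => ⟨x, h⟩, fun x => rfl, fun x => rfl⟩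
  · have : IsEmpty {_a : A // p} := ⟨fun x => h x.2⟩
    exact Nat.card_of_isEmpty

private theorem card_sigma {V : Type} (m : V → ℕ) (u : V) :
    Nat.card {s : (Σ v : V, Fin (m v)) // s.1 = u} = m u := by
  rw [Nat.card_congr (Equiv.sigmaSubtype u), Nat.card_eq_fintype_card, Fintype.card_fin]

theorem interplay (k : ℕ) {V W : Type} [Finite V] [Finite W] [DecidableEq V] (C : SimpleGraph V)
    (R : SimpleGraph W) (ρ : W) (m : V → ℕ) (v v' : V) (q : ℕ) (hq : 0 < q) :
    (q : ℤ) ∣ (fk (k + 1) C R ρ (m + Pi.single v q + Pi.single v' 2) : ℤ) + fk (k + 1) C R ρ m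
      - fk (k + 1) C R ρ (m + Pi.single v q) - fk (k + 1) C R ρ (m + Pi.single v' 2) := by
  classical
  have : NeZero q := ⟨hq.ne'⟩
  let P := Multiplicative (ZMod q)
  let Q := Multiplicative (ZMod 2)
  let Y := Σ v : V, Fin (m v)
  let X := Y ⊕ (P ⊕ Q)
  have hPf : Finite P := inferInstanceAs (Finite (ZMod q))
  have hQf : Finite Q := inferInstanceAs (Finite (ZMod 2))
  have hP : Nat.card P = q := Nat.card_zmod q
  have hQ : Nat.card Q = 2 := Nat.card_zmod 2
  let ℓ : X → V := Sum.elim (fun s => s.1) (Sum.elim (fun _ => v) (fun _ => v'))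
  have hℓ : ∀ (g : P × Q) (x : X), ℓ (xHom Y P Q g x) = ℓ x := by
    intro g x
    rcases x with y | p | r <;> rfl
  let G := att C R ρ ℓ
  let A : Set (V ⊕ X × W) := {z | ∃ (p : P) (w : W), z = .inr (.inr (.inl p), w)}
  let B : Set (V ⊕ X × W) := {z | ∃ (r : Q) (w : W), z = .inr (.inr (.inr r), w)}
  let act : MulAction (P × Q) (V ⊕ X × W) := attAct (xHom Y P Q)
  have hsm : ∀ (g : P × Q) (z : V ⊕ X × W), g • z = Sum.map id (Prod.map (xHom Y P Q g) id) z :=
    fun g z => rfl
  have hdvd : Nat.card (P × Q) ∣ 2 * cnt (k + 1) G A B := by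
    refine dvd_two_mul_cnt k G ?_ A B ?_ ?_ ?_
    · intro g z z' h
      exact attAct_adj C R ρ ℓ (xHom Y P Q g) (hℓ g) z z' h
    · rintro g _ ⟨p, w, rfl⟩
      exact ⟨g.1 * p, w, rfl⟩
    · rintro g _ ⟨r, w, rfl⟩
      exact ⟨g.2 * r, w, rfl⟩
    · intro g hg
      by_cases h1 : g.1 = 1
      · have h2 : g.2 ≠ 1 := fun h2 => hg (Prod.ext h1 h2)
        have key : ∀ z : V ⊕ X × W, g • z = z → z ∉ B := by
          rintro z hz ⟨r, w, rfl⟩
          have h3 : (Sum.inr (Sum.inr (Sum.inr (g.2 * r)), w) : V ⊕ X × W) =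
            Sum.inr (Sum.inr (Sum.inr r), w) := hz
          have h4 : g.2 * r = r := Sum.inr_injective (Sum.inr_injective
            (congrArg Prod.fst (Sum.inr_injective h3)))
          exact h2 (by simpa using h4)
        exact Or.inr fun x y _ hx hy => ⟨key x hx, key y hy⟩
      · have key : ∀ z : V ⊕ X × W, g • z = z → z ∉ A := by
          rintro z hz ⟨r, w, rfl⟩
          have h3 : (Sum.inr (Sum.inr (Sum.inl (g.1 * r)), w) : V ⊕ X × W) =
            Sum.inr (Sum.inr (Sum.inl r), w) := hz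
          have h4 : g.1 * r = r := Sum.inl_injective (Sum.inr_injective
            (congrArg Prod.fst (Sum.inr_injective h3)))
          exact h1 (by simpa using h4)
        exact Or.inl fun x y _ hx hy => ⟨key x hx, key y hy⟩
  rw [Nat.card_prod, hP, hQ, mul_comm q 2] at hdvd
  have hdvd' : q ∣ cnt (k + 1) G A B := (Nat.mul_dvd_mul_iff_left two_pos).1 hdvd
  have hfin : Finite (V ⊕ X × W) := inferInstance
  have hie := incl_excl (k + 1) G A B
  have hcount : ∀ (α β : Prop) [Decidable α] [Decidable β] (T : X → Prop)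
      (_ : ∀ y, T (.inl y)) (_ : ∀ p, T (.inr (.inl p)) ↔ α) (_ : ∀ r, T (.inr (.inr r)) ↔ β)
      (u : V), Nat.card {x : X // T x ∧ ℓ x = u} =
        m u + ((if α ∧ v = u then q else 0) + (if β ∧ v' = u then 2 else 0)) := by
    intro α β _ _ T h1 h2 h3 u
    rw [card_sum_part, card_sum_part]
    congr 1
    · rw [← card_sigma m u]
      refine Nat.card_congr (Equiv.subtypeEquivRight fun y => ?_)
      exact ⟨fun h => h.2, fun h => ⟨h1 y, h⟩⟩
    · congr 1
      · rw [← hP, ← card_const (A := P) (α ∧ v = u)]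
        exact Nat.card_congr (Equiv.subtypeEquivRight fun p => and_congr (h2 p) Iff.rfl)
      · rw [← hQ, ← card_const (A := Q) (β ∧ v' = u)]
        exact Nat.card_congr (Equiv.subtypeEquivRight fun p => and_congr (h3 p) Iff.rfl)
  have e0 : lsz (k + 1) G = fk (k + 1) C R ρ (m + Pi.single v q + Pi.single v' 2) := by
    refine lsz_att_eq_fk (k + 1) C R ρ ℓ _ fun u => ?_
    have h := hcount True True (fun _ => True) (fun _ => trivial) (fun _ => Iff.rfl)
      (fun _ => Iff.rfl) u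
    rw [Nat.card_congr (Equiv.subtypeEquivRight (p := fun x : X => ℓ x = u)
      (q := fun x : X => True ∧ ℓ x = u) fun x => by simp), h]
    simp [Pi.single_apply, eq_comm, add_assoc]
  have e1 : lsz (k + 1) (G.induce (A ∪ B)ᶜ) = fk (k + 1) C R ρ m := by
    refine lsz_del (k + 1) C R ρ ℓ _ {x | ∃ z, x = .inr z} ?_ ?_ m fun u => ?_
    · rintro v (⟨p, w, h⟩ | ⟨r, w, h⟩) <;> simp at h
    · intro x w
      constructor
      · rintro (⟨p, w, h⟩ | ⟨r, w, h⟩)
        · have h5 : x = .inr (.inl p) := by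
            have h6 := Sum.inr_injective h
            exact congrArg Prod.fst h6
          exact ⟨_, h5⟩
        · have h5 : x = .inr (.inr r) := by
            have h6 := Sum.inr_injective h
            exact congrArg Prod.fst h6
          exact ⟨_, h5⟩
      · rintro ⟨p | r, rfl⟩
        · exact Or.inl ⟨p, w, rfl⟩
        · exact Or.inr ⟨r, w, rfl⟩
    · have h := hcount False False (fun x => x ∉ {x : X | ∃ z, x = .inr z})
        (fun y => by rintro ⟨z, hz⟩; cases hz) (fun p => ⟨fun h => h ⟨_, rfl⟩, fun h => h.elim⟩)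
        (fun r => ⟨fun h => h ⟨_, rfl⟩, fun h => h.elim⟩) u
      rw [h]
      simp
  have e2 : lsz (k + 1) (G.induce Aᶜ) = fk (k + 1) C R ρ (m + Pi.single v' 2) := by
    refine lsz_del (k + 1) C R ρ ℓ _ {x | ∃ p, x = .inr (.inl p)} ?_ ?_ _ fun u => ?_
    · rintro v ⟨p, w, h⟩
      simp at h
    · intro x w
      constructor
      · rintro ⟨p, w, h⟩
        exact ⟨p, congrArg Prod.fst (Sum.inr_injective h)⟩
      · rintro ⟨p, rfl⟩
        exact ⟨p, w, rfl⟩
    · have h := hcount False True (fun x => x ∉ {x : X | ∃ p, x = .inr (.inl p)})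
        (fun y => by rintro ⟨z, hz⟩; cases hz) (fun p => ⟨fun h => h ⟨_, rfl⟩, fun h => h.elim⟩)
        (fun r => ⟨fun _ => trivial, fun _ => by
          rintro ⟨z, hz⟩; exact Sum.inr_ne_inl (Sum.inr_injective hz)⟩) u
      rw [h]
      simp [Pi.single_apply, eq_comm]
  have e3 : lsz (k + 1) (G.induce Bᶜ) = fk (k + 1) C R ρ (m + Pi.single v q) := by
    refine lsz_del (k + 1) C R ρ ℓ _ {x | ∃ p, x = .inr (.inr p)} ?_ ?_ _ fun u => ?_
    · rintro v ⟨p, w, h⟩
      simp at h
    · intro x w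
      constructor
      · rintro ⟨p, w, h⟩
        exact ⟨p, congrArg Prod.fst (Sum.inr_injective h)⟩
      · rintro ⟨p, rfl⟩
        exact ⟨p, w, rfl⟩
    · have h := hcount True False (fun x => x ∉ {x : X | ∃ p, x = .inr (.inr p)})
        (fun y => by rintro ⟨z, hz⟩; cases hz) (fun p => ⟨fun _ => trivial, fun _ => by
          rintro ⟨z, hz⟩; exact Sum.inl_ne_inr (Sum.inr_injective hz)⟩)
        (fun r => ⟨fun h => h ⟨_, rfl⟩, fun h => h.elim⟩) u
      rw [h]
      simp [Pi.single_apply, eq_comm]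
  rw [e0, e1, e2, e3] at hie
  obtain ⟨c, hc⟩ := hdvd'
  refine ⟨c, ?_⟩
  rw [hc] at hie
  have h9 : ((fk (k + 1) C R ρ (m + Pi.single v q + Pi.single v' 2) +
      fk (k + 1) C R ρ m : ℕ) : ℤ) = ((fk (k + 1) C R ρ (m + Pi.single v' 2) +
      fk (k + 1) C R ρ (m + Pi.single v q) + q * c : ℕ) : ℤ) := by rw [hie]
  push_cast at h9
  linarith

theorem single_dvd (k : ℕ) {V W : Type} [Finite V] [Finite W] [DecidableEq V] (C : SimpleGraph V)
    (R : SimpleGraph W) (ρ : W) (v : V) (q : ℕ) (hq : 0 < q) :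
    (q : ℤ) ∣ 2 * ((fk (k + 1) C R ρ (Pi.single v q) : ℤ) - fk (k + 1) C R ρ 0) := by
  classical
  have : NeZero q := ⟨hq.ne'⟩
  let P := Multiplicative (ZMod q)
  have hPf : Finite P := inferInstanceAs (Finite (ZMod q))
  have hP : Nat.card P = q := Nat.card_zmod q
  let ℓ : P → V := fun _ => v
  let f : P →* Equiv.Perm P :=
    { toFun := fun g => Equiv.mulLeft g
      map_one' := by ext x; simp
      map_mul' := fun g h => by ext x; simp }
  let G := att C R ρ ℓ
  let A : Set (V ⊕ P × W) := {z | ∃ (p : P) (w : W), z = .inr (p, w)}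
  let act : MulAction P (V ⊕ P × W) := attAct f
  have hdvd : Nat.card P ∣ 2 * cnt (k + 1) G A A := by
    refine dvd_two_mul_cnt k G ?_ A A ?_ ?_ ?_
    · intro g z z' h
      exact attAct_adj C R ρ ℓ (f g) (fun _ => rfl) z z' h
    · rintro g _ ⟨p, w, rfl⟩
      exact ⟨g * p, w, rfl⟩
    · rintro g _ ⟨p, w, rfl⟩
      exact ⟨g * p, w, rfl⟩
    · intro g hg
      have key : ∀ z : V ⊕ P × W, g • z = z → z ∉ A := by
        rintro z hz ⟨r, w, rfl⟩
        have h3 : (Sum.inr (g * r, w) : V ⊕ P × W) = Sum.inr (r, w) := hz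
        have h4 : g * r = r := by simpa using h3
        exact hg (by simpa using h4)
      exact Or.inl fun x y _ hx hy => ⟨key x hx, key y hy⟩
  rw [hP] at hdvd
  have hie := incl_excl (k + 1) G A A
  rw [Set.union_self] at hie
  have e0 : lsz (k + 1) G = fk (k + 1) C R ρ (Pi.single v q) := by
    refine lsz_att_eq_fk (k + 1) C R ρ ℓ _ fun u => ?_
    change Nat.card {_x : P // v = u} = _
    rw [card_const (A := P) (v = u), hP]
    simp [Pi.single_apply, eq_comm]
  have e1 : lsz (k + 1) (G.induce Aᶜ) = fk (k + 1) C R ρ 0 := by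
    refine lsz_del (k + 1) C R ρ ℓ _ Set.univ ?_ ?_ 0 fun u => ?_
    · rintro v ⟨p, w, h⟩
      simp at h
    · intro x w
      exact ⟨fun _ => trivial, fun _ => ⟨x, w, rfl⟩⟩
    · have : IsEmpty {x : P // x ∉ Set.univ ∧ ℓ x = u} := ⟨fun x => x.2.1 trivial⟩
      exact Nat.card_of_isEmpty
  rw [e0, e1] at hie
  obtain ⟨c, hc⟩ := hdvd
  refine ⟨c, ?_⟩
  have h8 : fk (k + 1) C R ρ (Pi.single v q) = fk (k + 1) C R ρ 0 + cnt (k + 1) G A A := by omega
  have h9 : (2 : ℤ) * (cnt (k + 1) G A A : ℤ) = q * c := by exact_mod_cast hc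
  rw [h8]
  push_cast
  linarith

end Pool.Agent.Lib.MP_a38fe7_co
end

section

/-!
# Many groups of copies

Step lemma: for `m' = 2 • m` (all multiplicities even) and `F m = fk (k + 1) C R ρ m`:
`F (m' + Pi.single v q) - F m' ≡ F (Pi.single v q) - F 0` modulo `q`. Proof by induction on `∑ m`: if
`m v' > 0` then `m' = m'' + Pi.single v' 2` with `m''` even, and `interplay` (for `m''`, `v`, `v'`).
`multi` by induction on `∑ u`: `2 • m + q • u = 2 • (m + (q / 2) • u)`.
-/

set_option autoImplicit false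

namespace Pool.Agent.Lib.MP_a38fe7_co

private theorem multi_induction {V : Type} [Fintype V] [DecidableEq V] {P : (V → ℕ) → Prop}
    (h0 : P 0) (h1 : ∀ f v, P f → P (f + Pi.single v 1)) (f : V → ℕ) : P f := by
  induction hn : ∑ v, f v generalizing f with
  | zero =>
    have : f = 0 := by
      ext v
      exact Finset.sum_eq_zero_iff.1 hn v (Finset.mem_univ v)
    rw [this]
    exact h0
  | succ n ih =>
    obtain ⟨v, hv⟩ : ∃ v, f v ≠ 0 := by
      by_contra! h
      simp [h] at hn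
    have hf : f = (f - Pi.single v 1) + Pi.single v 1 := by
      ext w
      by_cases hw : w = v
      · subst hw
        simp only [Pi.add_apply, Pi.sub_apply, Pi.single_eq_same]
        omega
      · simp [hw]
    rw [hf]
    apply h1
    apply ih
    have h2 : ∑ w, f w = ∑ w, (f - Pi.single v 1 : V → ℕ) w + 1 := by
      conv_lhs => rw [hf]
      simp only [Pi.add_apply, Finset.sum_add_distrib]
      congr 1
      simp
    omega

private theorem multi_step {V : Type} [Fintype V] [DecidableEq V] (F : (V → ℕ) → ℤ) (q : ℕ)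
    (hF : ∀ (m : V → ℕ) (v v' : V), (q : ℤ) ∣ F (m + Pi.single v q + Pi.single v' 2) + F m
      - F (m + Pi.single v q) - F (m + Pi.single v' 2)) (v : V) (m : V → ℕ) :
    (q : ℤ) ∣ F (2 • m + Pi.single v q) - F (2 • m) - (F (Pi.single v q) - F 0) := by
  induction m using multi_induction with
  | h0 => simp
  | h1 m v' ih =>
    have h1 := hF (2 • m) v v'
    have h2 : 2 • (m + Pi.single v' 1) = 2 • m + Pi.single v' 2 := by
      rw [smul_add, ← Pi.single_smul]
      rfl
    have h3 : 2 • m + Pi.single v' 2 + Pi.single v q = 2 • m + Pi.single v q + Pi.single v' 2 := by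
      abel
    rw [h2, h3]
    have h4 := dvd_add h1 ih
    refine (dvd_iff_dvd_of_dvd_sub ?_).1 h4
    ring_nf
    exact dvd_zero _

/-- Attaching `u v` groups of `q` copies at each vertex `v`, to a graph with even multiplicities. -/
theorem multi (k : ℕ) {V W : Type} [Fintype V] [Finite W] [DecidableEq V] (C : SimpleGraph V)
    (R : SimpleGraph W) (ρ : W) (m u : V → ℕ) (q : ℕ) (hq : 0 < q) (hq2 : 2 ∣ q) :
    (q : ℤ) ∣ (fk (k + 1) C R ρ (2 • m + q • u) : ℤ) - fk (k + 1) C R ρ (2 • m)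
      - ∑ v, (u v : ℤ) * ((fk (k + 1) C R ρ (Pi.single v q) : ℤ) - fk (k + 1) C R ρ 0) := by
  set F : (V → ℕ) → ℤ := fun m => (fk (k + 1) C R ρ m : ℤ) with hFdef
  have hF : ∀ (m : V → ℕ) (v v' : V), (q : ℤ) ∣ F (m + Pi.single v q + Pi.single v' 2) + F m
      - F (m + Pi.single v q) - F (m + Pi.single v' 2) := fun m v v' =>
    interplay k C R ρ m v v' q hq
  show (q : ℤ) ∣ F (2 • m + q • u) - F (2 • m) - ∑ v, (u v : ℤ) * (F (Pi.single v q) - F 0)
  obtain ⟨t, ht⟩ := hq2
  induction u using multi_induction with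
  | h0 => simp
  | h1 u v ih =>
    have h1 : 2 • m + q • (u + Pi.single v 1) = 2 • (m + t • u) + Pi.single v q := by
      rw [smul_add, smul_add, ← Pi.single_smul, smul_smul, ← ht]
      simp only [smul_eq_mul, mul_one]
      abel
    have h2 : 2 • m + q • u = 2 • (m + t • u) := by
      rw [smul_add, smul_smul, ← ht]
    have h3 := multi_step F q hF v (m + t • u)
    rw [h2] at ih
    rw [h1]
    have h4 : ∑ w, ((u + Pi.single v 1 : V → ℕ) w : ℤ) * (F (Pi.single w q) - F 0) =
        ∑ w, (u w : ℤ) * (F (Pi.single w q) - F 0) + (F (Pi.single v q) - F 0) := by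
      have h5 : ∀ w, ((u + Pi.single v 1 : V → ℕ) w : ℤ) * (F (Pi.single w q) - F 0) =
          (u w : ℤ) * (F (Pi.single w q) - F 0) +
            (if w = v then (F (Pi.single w q) - F 0) else 0) := by
        intro w
        by_cases hw : w = v
        · subst hw
          simp only [Pi.add_apply, Pi.single_eq_same, if_true]
          push_cast
          ring
        · simp [hw]
      rw [Finset.sum_congr rfl fun w _ => h5 w, Finset.sum_add_distrib]
      simp
    rw [h4]
    have h6 := dvd_add h3 ih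
    refine (dvd_iff_dvd_of_dvd_sub ?_).1 h6
    ring_nf
    exact dvd_zero _

end Pool.Agent.Lib.MP_a38fe7_co
end

section

/-!
# The arithmetic of the comparison

`q = 2 ^ (r + 1)`, `B j` multiples of `2 ^ r` modulo `q`, all congruent to `B (i + 1)` for `j > i`, and
`B (i + 1) - B i ≡ q.choose 2 = 2 ^ r (q - 1)`; the integers `c j` have sum `0`, are even for `j < i`, and
`c i` is odd. Then `∑ c j * B j` is not a multiple of `q`.

Proof. Write `2 B j = q x j` (so `B j = 2 ^ r x j`); modulo `2`: `x j ≡ x (i+1)` for `j > i`,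
`x i ≡ x (i + 1) + 1`, and `∑ c j x j ≡ ∑_{j ≥ i} c j x j ≡ x (i+1) ∑_{j ≥ i} c j + c i
≡ x (i + 1) ∑_j c j + 1 = 1`.
-/

set_option autoImplicit false

namespace Pool.Agent.Lib.MP_a38fe7_co

theorem arith (L r i : ℕ) (c B : ℕ → ℤ) (hB : ∀ j < L, ((2 : ℤ) ^ (r + 1)) ∣ 2 * B j)
    (hi : i + 1 < L)
    (hBi : ((2 : ℤ) ^ (r + 1)) ∣ (B (i + 1) - B i - ((2 ^ (r + 1)).choose 2 : ℕ)))
    (hBj : ∀ j < L, i < j → c j ≠ 0 → ((2 : ℤ) ^ (r + 1)) ∣ (B j - B (i + 1)))
    (hc : ∑ j ∈ Finset.range L, c j = 0) (heven : ∀ j < i, (2 : ℤ) ∣ c j) (hodd : ¬ (2 : ℤ) ∣ c i) :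
    ¬ ((2 : ℤ) ^ (r + 1)) ∣ ∑ j ∈ Finset.range L, c j * B j := by
  have hpow : (2 : ℤ) ^ (r + 1) = 2 * 2 ^ r := by ring
  have hr : (2 : ℤ) ^ r ≠ 0 := by positivity
  have h1 : ∀ j, ∃ x : ℤ, j < L → B j = 2 ^ r * x := by
    intro j
    by_cases hj : j < L
    · obtain ⟨x, hx⟩ := hB j hj
      refine ⟨x, fun _ => ?_⟩
      rw [hpow] at hx
      have h2 : (2 : ℤ) * B j = 2 * (2 ^ r * x) := by rw [hx]; ring
      exact mul_left_cancel₀ (by norm_num) h2
    · exact ⟨0, fun h => absurd h hj⟩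
  choose x hx using h1
  have hcancel : ∀ a : ℤ, (2 : ℤ) ^ (r + 1) ∣ 2 ^ r * a ↔ (2 : ℤ) ∣ a := by
    intro a
    rw [pow_succ]
    exact mul_dvd_mul_iff_left hr
  have hch : (((2 ^ (r + 1)).choose 2 : ℕ) : ℤ) = 2 ^ r * (2 ^ (r + 1) - 1) := by
    have h2 : (2 ^ (r + 1)).choose 2 = 2 ^ r * (2 ^ (r + 1) - 1) := by
      rw [Nat.choose_two_right]
      have h3 : 2 ^ (r + 1) * (2 ^ (r + 1) - 1) = 2 * (2 ^ r * (2 ^ (r + 1) - 1)) := by
        rw [pow_succ]
        ring
      rw [h3, Nat.mul_div_cancel_left _ (by norm_num)]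
    rw [h2, Nat.cast_mul, Nat.cast_sub Nat.one_le_two_pow]
    push_cast
    rfl
  have hxi : ¬ (2 : ℤ) ∣ x i - x (i + 1) := by
    rw [hch, hx _ hi, hx i (by omega), ← mul_sub, ← mul_sub, hcancel] at hBi
    intro h3
    have h4 : (2 : ℤ) ∣ (2 : ℤ) ^ (r + 1) := ⟨2 ^ r, hpow⟩
    have h5 := dvd_add (dvd_add hBi h3) h4
    have h6 : x (i + 1) - x i - (2 ^ (r + 1) - 1) + (x i - x (i + 1)) + 2 ^ (r + 1) = 1 := by ring
    rw [h6] at h5
    omega
  have hS : ∑ j ∈ Finset.range L, c j * B j =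
      2 ^ r * ∑ j ∈ Finset.range L, c j * (x j - x (i + 1)) := by
    have h3 : ∑ j ∈ Finset.range L, c j * (x j - x (i + 1)) = ∑ j ∈ Finset.range L, c j * x j := by
      simp only [mul_sub, Finset.sum_sub_distrib]
      rw [← Finset.sum_mul, hc, zero_mul, sub_zero]
    rw [h3, Finset.mul_sum]
    refine Finset.sum_congr rfl fun j hj => ?_
    rw [hx j (Finset.mem_range.1 hj)]
    ring
  rw [hS, hcancel]
  have hmem : i ∈ Finset.range L := Finset.mem_range.2 (by omega)
  rw [← Finset.add_sum_erase _ _ hmem]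
  intro h3
  have h4 : (2 : ℤ) ∣ ∑ j ∈ (Finset.range L).erase i, c j * (x j - x (i + 1)) := by
    refine Finset.dvd_sum fun j hj => ?_
    obtain ⟨hji, hjL⟩ := Finset.mem_erase.1 hj
    rw [Finset.mem_range] at hjL
    rcases lt_or_gt_of_ne hji with h5 | h5
    · exact (heven j h5).mul_right _
    · by_cases h6 : c j = 0
      · rw [h6, zero_mul]
        exact dvd_zero _
      · have h7 := hBj j hjL h5 h6
        rw [hx j hjL, hx _ hi, ← mul_sub, hcancel] at h7
        exact h7.mul_left _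
  have h5 := (dvd_add_left h4).1 h3
  rcases Int.prime_two.dvd_or_dvd h5 with h6 | h6
  · exact hodd h6
  · exact hxi h6

end Pool.Agent.Lib.MP_a38fe7_co
end
end

section

section

/-!
# Vertices of the iterated line graph that touch two sets at distance `d`

`A = {α = 0}`, `B = {β = 0}`; `α`, `β` are `1`-Lipschitz with `α + β ≥ d`.

(1) `Sep.lineGraph`: for `d = d' + 1` the line graph with `emin G α`, `emin G β` satisfies the same with
`d'`, and `touch G {α = 0} = {emin G α = 0}`. Hence `cnt k G A B = 0` for `k < d`.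

(2) `Geo`: in addition there are exactly `q` vertices with `α = 0`, `β = d`; for `1 ≤ j ≤ d` exactly one
vertex `z j` with `α = j`, `β = d - j`; consecutive ones are adjacent (if `d = 0`: the `q` vertices are
pairwise adjacent); `P` acts by automorphisms which preserve `α`, `β`, and for `p ≠ 1` adjacent fixed
vertices are not in `A`.
`Geo.lineGraph`: for `d = d' + 1` the line graph satisfies the same with `d'`: the edges with
`emin α = j`, `emin β = d' - j`, `j ≥ 1` are: only `s(z j, z (j + 1))`; those with `emin α = 0`,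
`emin β = d'` are the `s(x, z 1)` with `α x = 0`, `β x = d`. Indeed let `e = s(x, y)` with `emin α e = j`,
`emin β e = d' - j`; say `α x = j ≤ α y`; then `β x ≥ d - j`, so the minimum of `β` is `β y = d' - j`,
then `α y ≥ j + 1`, so `α y = j + 1` and `β x = d - j` by the Lipschitz property.
(`0 < q` is used only to have some edge as a value of `z'` outside the range.)
Two different edges `s(x, z 1)` share `z 1`, `s(z j, z (j+1))` and `s(z (j+1), z (j+2))` share `z (j+1)`.

(3) `Geo.cnt_eq`: `cnt d G A B = q` (induction; `d = 0` is the field `card`).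

-/

set_option autoImplicit false

namespace Pool.Agent.Lib.MP_a38fe7_co

structure Sep {V : Type} (G : SimpleGraph V) (α β : V → ℕ) (d : ℕ) : Prop where
  lipa : ∀ x y, G.Adj x y → α x ≤ α y + 1
  lipb : ∀ x y, G.Adj x y → β x ≤ β y + 1
  sum : ∀ x, d ≤ α x + β x

private theorem geo_emin_le {V : Type} {G : SimpleGraph V} (α : V → ℕ) {e : G.edgeSet} {v : V}
    (hv : v ∈ (e : Sym2 V)) : emin G α e ≤ α v := by
  obtain ⟨e, he⟩ := e
  induction e with
  | _ x y =>
    rw [emin_mk]
    rcases Sym2.mem_iff.1 hv with h | h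
    · rw [h]; exact min_le_left _ _
    · rw [h]; exact min_le_right _ _

theorem touch_zero {V : Type} (G : SimpleGraph V) (α : V → ℕ) :
    touch G {x | α x = 0} = {e | emin G α e = 0} := by
  ext e
  obtain ⟨e, he⟩ := e
  induction e with
  | _ x y =>
    constructor
    · rintro ⟨a, ha, hae⟩
      have h1 := geo_emin_le α (e := ⟨s(x, y), he⟩) hae
      have h2 : α a = 0 := ha
      show emin G α ⟨s(x, y), he⟩ = 0
      omega
    · intro h
      have h1 : min (α x) (α y) = 0 := h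
      rcases Nat.le_total (α x) (α y) with h2 | h2
      · rw [min_eq_left h2] at h1
        exact ⟨x, h1, Sym2.mem_mk_left x y⟩
      · rw [min_eq_right h2] at h1
        exact ⟨y, h1, Sym2.mem_mk_right x y⟩

private theorem geo_adj {V : Type} {G : SimpleGraph V} {e e' : G.edgeSet}
    (h : G.lineGraph.Adj e e') : ∃ v x y, ∃ (h1 : s(v, x) ∈ G.edgeSet) (h2 : s(v, y) ∈ G.edgeSet),
      e = ⟨s(v, x), h1⟩ ∧ e' = ⟨s(v, y), h2⟩ := by
  rw [SimpleGraph.lineGraph_adj_iff_exists] at h
  obtain ⟨-, v, hv, hv'⟩ := h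
  obtain ⟨x, hx⟩ := Sym2.mem_iff_exists.1 hv
  obtain ⟨y, hy⟩ := Sym2.mem_iff_exists.1 hv'
  refine ⟨v, x, y, by rw [← hx]; exact e.2, by rw [← hy]; exact e'.2, Subtype.ext hx,
    Subtype.ext hy⟩

private theorem geo_mk_adj {V : Type} {G : SimpleGraph V} {v x y : V}
    (h1 : s(x, v) ∈ G.edgeSet) (h2 : s(v, y) ∈ G.edgeSet) (hne : (⟨s(x, v), h1⟩ : G.edgeSet) ≠
      ⟨s(v, y), h2⟩) : G.lineGraph.Adj ⟨s(x, v), h1⟩ ⟨s(v, y), h2⟩ := by
  rw [SimpleGraph.lineGraph_adj_iff_exists]
  exact ⟨hne, v, Sym2.mem_mk_right _ _, Sym2.mem_mk_left _ _⟩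

private theorem geo_lip {V : Type} {G : SimpleGraph V} {α : V → ℕ}
    (hα : ∀ x y, G.Adj x y → α x ≤ α y + 1) (e e' : G.edgeSet) (h : G.lineGraph.Adj e e') :
    emin G α e ≤ emin G α e' + 1 := by
  obtain ⟨v, x, y, h1, h2, rfl, rfl⟩ := geo_adj h
  rw [emin_mk, emin_mk]
  have h3 := hα v y h2
  omega

theorem Sep.lineGraph {V : Type} {G : SimpleGraph V} {α β : V → ℕ} {d : ℕ}
    (h : Sep G α β (d + 1)) : Sep G.lineGraph (emin G α) (emin G β) d where
  lipa := geo_lip h.lipa
  lipb := geo_lip h.lipb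
  sum := by
    intro e
    obtain ⟨e, he⟩ := e
    induction e with
    | _ x y =>
      rw [emin_mk, emin_mk]
      have h0 : G.Adj x y := he
      have h1 := h.lipa x y h0
      have h2 := h.lipa y x h0.symm
      have h3 := h.lipb x y h0
      have h4 := h.lipb y x h0.symm
      have h5 := h.sum x
      have h6 := h.sum y
      omega

theorem Sep.cnt_eq_zero {k : ℕ} {V : Type} {G : SimpleGraph V} {α β : V → ℕ} {d : ℕ}
    (h : Sep G α β d) (hk : k < d) : cnt k G {x | α x = 0} {x | β x = 0} = 0 := by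
  induction k generalizing V d with
  | zero =>
    rw [cnt_zero]
    have : IsEmpty {v : V // v ∈ {x | α x = 0} ∧ v ∈ {x | β x = 0}} := by
      refine ⟨?_⟩
      rintro ⟨v, hv1, hv2⟩
      have h1 := h.sum v
      have h2 : α v = 0 := hv1
      have h3 : β v = 0 := hv2
      omega
    exact Nat.card_of_isEmpty
  | succ k ih =>
    rw [cnt_succ, touch_zero, touch_zero]
    obtain ⟨d', rfl⟩ : ∃ d', d = d' + 1 := ⟨d - 1, by omega⟩
    exact ih h.lineGraph (by omega)

structure Geo (P : Type) [Group P] {V : Type} [MulAction P V] (G : SimpleGraph V)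
    (α β : V → ℕ) (q d : ℕ) (z : ℕ → V) : Prop extends Sep G α β d where
  card : Nat.card {x : V // α x = 0 ∧ β x = d} = q
  adj : ∀ (p : P) (x y : V), G.Adj x y → G.Adj (p • x) (p • y)
  inva : ∀ (p : P) (x : V), α (p • x) = α x
  invb : ∀ (p : P) (x : V), β (p • x) = β x
  fx : ∀ p : P, p ≠ 1 → Fx G {x | α x = 0} p
  adj0 : d = 0 → ∀ x y, α x = 0 → β x = 0 → α y = 0 → β y = 0 → x ≠ y → G.Adj x y
  adj1 : 0 < d → ∀ x, α x = 0 → β x = d → G.Adj x (z 1)
  zval : ∀ j, 1 ≤ j → j ≤ d → α (z j) = j ∧ β (z j) = d - j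
  zuniq : ∀ j, 1 ≤ j → j ≤ d → ∀ x, α x = j → β x = d - j → x = z j
  zadj : ∀ j, 1 ≤ j → j + 1 ≤ d → G.Adj (z j) (z (j + 1))

private theorem geo_split {V : Type} {G : SimpleGraph V} {α β : V → ℕ} {d : ℕ}
    (h : Sep G α β (d + 1)) {j : ℕ} (hj : j ≤ d) (e : G.edgeSet) (ha : emin G α e = j)
    (hb : emin G β e = d - j) : ∃ x y, ∃ h0 : s(x, y) ∈ G.edgeSet, e = ⟨s(x, y), h0⟩ ∧
      α x = j ∧ β x = d + 1 - j ∧ α y = j + 1 ∧ β y = d - j := by
  obtain ⟨e, he⟩ := e
  induction e with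
  | _ x y =>
    rw [emin_mk] at ha hb
    have h0 : G.Adj x y := he
    have h1 := h.lipa x y h0
    have h2 := h.lipa y x h0.symm
    have h3 := h.lipb x y h0
    have h4 := h.lipb y x h0.symm
    have h5 := h.sum x
    have h6 := h.sum y
    rcases Nat.le_total (α x) (α y) with h7 | h7
    · exact ⟨x, y, he, rfl, by omega, by omega, by omega, by omega⟩
    · refine ⟨y, x, h0.symm, Subtype.ext Sym2.eq_swap, by omega, by omega, by omega, by omega⟩

theorem Geo.lineGraph {P : Type} [Group P] {V : Type} [MulAction P V] {G : SimpleGraph V}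
    {α β : V → ℕ} {q d : ℕ} {z : ℕ → V} (h : Geo P G α β q (d + 1) z) (hq : 0 < q) :
    ∃ z', @Geo P _ G.edgeSet (edgeAct G h.adj) G.lineGraph (emin G α) (emin G β) q d z' := by
  classical
  let _ := edgeAct G h.adj
  obtain ⟨x0, hx0, hx0'⟩ : ∃ x0, α x0 = 0 ∧ β x0 = d + 1 := by
    have h1 : 0 < Nat.card {x : V // α x = 0 ∧ β x = d + 1} := by rw [h.card]; exact hq
    obtain ⟨⟨⟨x, hx⟩⟩, -⟩ := Nat.card_pos_iff.1 h1
    exact ⟨x, hx.1, hx.2⟩
  have e0 : G.Adj x0 (z 1) := h.adj1 (by omega) x0 hx0 hx0'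
  have hz : ∀ j, (1 ≤ j ∧ j ≤ d) → s(z j, z (j + 1)) ∈ G.edgeSet := fun j hj =>
    h.zadj j hj.1 (by omega)
  set z' : ℕ → G.edgeSet := fun j =>
    if hj : 1 ≤ j ∧ j ≤ d then ⟨s(z j, z (j + 1)), hz j hj⟩ else ⟨s(x0, z 1), e0⟩ with hz'
  have hz'v : ∀ j (hj : 1 ≤ j ∧ j ≤ d), z' j = ⟨s(z j, z (j + 1)), hz j hj⟩ := by
    intro j hj
    rw [hz']
    simp only [dif_pos hj]
  have hval : ∀ j, 1 ≤ j → j ≤ d → emin G α (z' j) = j ∧ emin G β (z' j) = d - j := by
    intro j h1 h2
    rw [hz'v j ⟨h1, h2⟩, emin_mk, emin_mk]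
    have h3 := h.zval j h1 (by omega)
    have h4 := h.zval (j + 1) (by omega) (by omega)
    omega
  have hmem : ∀ x, α x = 0 → β x = d + 1 → s(x, z 1) ∈ G.edgeSet := fun x h1 h2 =>
    (SimpleGraph.mem_edgeSet G).2 (h.adj1 (by omega) x h1 h2)
  have hmems : ∀ (p : P) (x y : V) (_ : s(x, y) ∈ G.edgeSet), s(p • x, p • y) ∈ G.edgeSet :=
    fun p x y h1 => (SimpleGraph.mem_edgeSet G).2 (h.adj p x y ((SimpleGraph.mem_edgeSet G).1 h1))
  -- the edges with values `0` and `d`
  have hend : ∀ e : G.edgeSet, emin G α e = 0 → emin G β e = d →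
      ∃ x, ∃ h0 : s(x, z 1) ∈ G.edgeSet, e = ⟨s(x, z 1), h0⟩ ∧ α x = 0 ∧ β x = d + 1 := by
    intro e ha hb
    obtain ⟨x, y, h0, he, h1, h2, h3, h4⟩ := geo_split h.toSep (Nat.zero_le d) e ha
      (by simpa using hb)
    have hy : y = z 1 := h.zuniq 1 le_rfl (by omega) y (by simpa using h3) (by simpa using h4)
    subst hy
    exact ⟨x, h0, he, h1, by simpa using h2⟩
  have hsmul : ∀ (p : P) (x y : V) (h1 : s(x, y) ∈ G.edgeSet),
      p • (⟨s(x, y), h1⟩ : G.edgeSet) = ⟨s(p • x, p • y), hmems p x y h1⟩ := by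
    intro p x y h1
    rfl
  refine ⟨z', ?_⟩
  refine { h.toSep.lineGraph with
    card := ?_, adj := ?_, inva := ?_, invb := ?_, fx := ?_, adj0 := ?_, adj1 := ?_,
    zval := hval, zuniq := ?_, zadj := ?_ }
  · rw [← h.card]
    symm
    refine Nat.card_congr (Equiv.ofBijective
      (fun x : {x : V // α x = 0 ∧ β x = d + 1} =>
        (⟨⟨s(x.1, z 1), hmem x.1 x.2.1 x.2.2⟩, ?_⟩ :
          {e : G.edgeSet // emin G α e = 0 ∧ emin G β e = d})) ⟨?_, ?_⟩)
    · rw [emin_mk, emin_mk]
      have h1 := x.2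
      have h2 := h.zval 1 le_rfl (by omega)
      omega
    · rintro ⟨x, hx⟩ ⟨y, hy⟩ hxy
      have h1 : s(x, z 1) = s(y, z 1) := congrArg (fun e => (e.1 : G.edgeSet).1) hxy
      rw [Sym2.eq_iff] at h1
      apply Subtype.ext
      rcases h1 with h1 | h1
      · exact h1.1
      · exact h1.1.trans h1.2
    · rintro ⟨e, he⟩
      obtain ⟨x, h0, he', h1, h2⟩ := hend e he.1 he.2
      exact ⟨⟨x, h1, h2⟩, Subtype.ext he'.symm⟩
  · intro p e e' hee
    have hne : e ≠ e' := G.lineGraph.ne_of_adj hee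
    obtain ⟨v, x, y, h1, h2, rfl, rfl⟩ := geo_adj hee
    rw [SimpleGraph.lineGraph_adj_iff_exists]
    refine ⟨fun h3 => hne (MulAction.injective p h3), p • v, ?_, ?_⟩
    · rw [hsmul]
      exact Sym2.mem_mk_left _ _
    · rw [hsmul]
      exact Sym2.mem_mk_left _ _
  · intro p e
    obtain ⟨e, he⟩ := e
    induction e with
    | _ x y =>
      rw [hsmul, emin_mk, emin_mk, h.inva, h.inva]
  · intro p e
    obtain ⟨e, he⟩ := e
    induction e with
    | _ x y =>
      rw [hsmul, emin_mk, emin_mk, h.invb, h.invb]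
  · intro p hp
    have h1 := fx_lineGraph G h.adj {x | α x = 0} p (h.fx p hp)
    rw [touch_zero] at h1
    exact h1
  · intro hd e e' h1 h2 h3 h4 hne
    subst hd
    obtain ⟨x, hx0, rfl, -, -⟩ := hend e h1 h2
    obtain ⟨y, hy0, rfl, -, -⟩ := hend e' h3 h4
    rw [SimpleGraph.lineGraph_adj_iff_exists]
    exact ⟨hne, z 1, Sym2.mem_mk_right _ _, Sym2.mem_mk_right _ _⟩
  · intro hd e h1 h2
    obtain ⟨x, hx0, rfl, -, -⟩ := hend e h1 h2
    have h3 := hval 1 le_rfl hd
    rw [SimpleGraph.lineGraph_adj_iff_exists]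
    refine ⟨?_, z 1, Sym2.mem_mk_right _ _, ?_⟩
    · intro h4
      rw [← h4, h1] at h3
      omega
    · rw [hz'v 1 ⟨le_rfl, hd⟩]
      exact Sym2.mem_mk_left _ _
  · intro j hj1 hj2 e h1 h2
    obtain ⟨x, y, h0, he, h3, h4, h5, h6⟩ := geo_split h.toSep hj2 e h1 h2
    have hx : x = z j := h.zuniq j hj1 (by omega) x h3 h4
    have hy : y = z (j + 1) := h.zuniq (j + 1) (by omega) (by omega) y h5 (by omega)
    rw [hz'v j ⟨hj1, hj2⟩, he]
    subst hx
    subst hy
    rfl
  · intro j hj1 hj2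
    have h1 := hval j hj1 (by omega)
    have h2 := hval (j + 1) (by omega) hj2
    rw [SimpleGraph.lineGraph_adj_iff_exists]
    refine ⟨?_, z (j + 1), ?_, ?_⟩
    · intro h3
      rw [h3] at h1
      omega
    · rw [hz'v j ⟨hj1, by omega⟩]
      exact Sym2.mem_mk_right _ _
    · rw [hz'v (j + 1) ⟨by omega, hj2⟩]
      exact Sym2.mem_mk_left _ _

theorem Geo.cnt_eq {P : Type} [Group P] {V : Type} [MulAction P V] {G : SimpleGraph V}
    {α β : V → ℕ} {q d : ℕ} {z : ℕ → V} (h : Geo P G α β q d z) (hq : 0 < q) :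
    cnt d G {x | α x = 0} {x | β x = 0} = q := by
  induction d generalizing V with
  | zero => exact h.card
  | succ d ih =>
    obtain ⟨z', h'⟩ := h.lineGraph hq
    rw [cnt_succ, touch_zero, touch_zero]
    exact @ih G.edgeSet (edgeAct G h.adj) G.lineGraph (emin G α) (emin G β) z' h'

end Pool.Agent.Lib.MP_a38fe7_co
end

section

/-!
# One level further

(4) `Geo.cnt_succ`: `cnt (d + 1) G A B = q.choose 2 + |P| * m`. Induction; for `d = 0`: `cnt 1 G A B` is the
number of edges that meet `{α = 0}` and `{β = 0}`. Those with both endpoints in `Z = {α = 0, β = 0}` are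
`q.choose 2` in number (`Z` is a clique of size `q`). On the other ones `P` acts freely: if `p ≠ 1` fixes
`e = s(x, y)` and `p x = x`, `p y = y` then `x, y ∉ A` by `fx`, contradiction; if `p x = y`, `p y = x` then
`α x = α y`, `β x = β y` by invariance, and since `e` meets `A` and `B` all four are `0`, so `x, y ∈ Z`.
(Free action: `MulAction.selfEquivOrbitsQuotientProd` or
`MulAction.card_eq_sum_card_group_div_card_stabilizer`.)
-/

set_option autoImplicit false

namespace Pool.Agent.Lib.MP_a38fe7_co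

/-- a free action of a finite group on a finite set -/
theorem geoB_free {P X : Type} [Group P] [Finite P] [Finite X] [MulAction P X]
    (h : ∀ (p : P) (x : X), p • x = x → p = 1) : Nat.card P ∣ Nat.card X := by
  have hst : ∀ b : X, MulAction.stabilizer P b = ⊥ := by
    intro b
    rw [Subgroup.eq_bot_iff_forall]
    intro p hp
    exact h p b hp
  have e := MulAction.selfEquivOrbitsQuotientProd hst
  rw [Nat.card_congr e, Nat.card_prod]
  exact Dvd.intro_left _ rfl

/-- the edges inside a clique -/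
theorem geoB_clique {V : Type} [Finite V] (G : SimpleGraph V) (Z : Set V)
    (hZ : ∀ x ∈ Z, ∀ y ∈ Z, x ≠ y → G.Adj x y) :
    Nat.card {e : G.edgeSet // ∀ x ∈ e.1, x ∈ Z} = (Nat.card Z).choose 2 := by
  classical
  let : Fintype V := Fintype.ofFinite V
  have e : {e : G.edgeSet // ∀ x ∈ e.1, x ∈ Z} ≃ {e : Sym2 Z // ¬ e.IsDiag} := by
    refine Equiv.symm ?_
    refine Equiv.ofBijective (fun e : {e : Sym2 Z // ¬ e.IsDiag} =>
      (⟨⟨Sym2.map Subtype.val e.1, ?_⟩, ?_⟩ : {e : G.edgeSet // ∀ x ∈ e.1, x ∈ Z})) ?_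
    · obtain ⟨e, he⟩ := e
      induction e with
      | _ x y =>
        refine hZ _ x.2 _ y.2 fun hxy => he ?_
        rw [Sym2.mk_isDiag_iff]
        exact Subtype.ext hxy
    · intro x hx
      obtain ⟨y, hy, rfl⟩ := Sym2.mem_map.1 hx
      exact y.2
    · constructor
      · intro a b hab
        have h1 : Sym2.map Subtype.val a.1 = Sym2.map Subtype.val b.1 :=
          congrArg (fun t : {e : G.edgeSet // ∀ x ∈ e.1, x ∈ Z} => t.1.1) hab
        exact Subtype.ext (Sym2.map.injective Subtype.val_injective h1)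
      · rintro ⟨⟨e, he⟩, hmem⟩
        induction e with
        | _ x y =>
          have hx : x ∈ Z := hmem x (Sym2.mem_mk_left x y)
          have hy : y ∈ Z := hmem y (Sym2.mem_mk_right x y)
          refine ⟨⟨s(⟨x, hx⟩, ⟨y, hy⟩), ?_⟩, ?_⟩
          · rw [Sym2.mk_isDiag_iff]
            intro hxy
            exact G.ne_of_adj he (congrArg Subtype.val hxy)
          · rfl
  rw [Nat.card_congr e, Nat.card_eq_fintype_card, Nat.card_eq_fintype_card,
    Sym2.card_subtype_not_diag]

theorem geoB_base {P : Type} [Group P] [Finite P] {V : Type} [Finite V] [MulAction P V]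
    {G : SimpleGraph V} {α β : V → ℕ} {q : ℕ} {z : ℕ → V} (h : Geo P G α β q 0 z) :
    ∃ m, cnt 1 G {x | α x = 0} {x | β x = 0} = q.choose 2 + Nat.card P * m := by
  classical
  set Z : Set V := {x | α x = 0 ∧ β x = 0} with hZ
  have hcl : ∀ x ∈ Z, ∀ y ∈ Z, x ≠ y → G.Adj x y := fun x hx y hy hxy =>
    h.adj0 rfl x y hx.1 hx.2 hy.1 hy.2 hxy
  have hcardZ : Nat.card Z = q := h.card
  let _ := edgeAct G h.adj
  -- the set of all edges in question
  set X : Set G.edgeSet := {e | e ∈ touch G {x | α x = 0} ∧ e ∈ touch G {x | β x = 0}} with hX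
  set Y : Set G.edgeSet := {e | ∀ x ∈ e.1, x ∈ Z} with hY
  have hYX : Y ⊆ X := by
    intro e he
    obtain ⟨e, hadj⟩ := e
    induction e with
    | _ x y =>
      have := he x (Sym2.mem_mk_left x y)
      exact ⟨⟨x, this.1, Sym2.mem_mk_left x y⟩, ⟨x, this.2, Sym2.mem_mk_left x y⟩⟩
  have hsm : ∀ (p : P) (x y : V) (hxy : s(x, y) ∈ G.edgeSet),
      p • (⟨s(x, y), hxy⟩ : G.edgeSet) = ⟨s(p • x, p • y), h.adj p x y hxy⟩ := fun p x y hxy => rfl
  have hXinv : ∀ (p : P) (e : G.edgeSet), e ∈ X \ Y → p • e ∈ X \ Y := by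
    intro p e he
    obtain ⟨e, hadj⟩ := e
    induction e with
    | _ x y =>
      rw [hsm]
      obtain ⟨⟨⟨a, ha, ha'⟩, ⟨b, hb, hb'⟩⟩, hnY⟩ := he
      refine ⟨⟨⟨p • a, ?_, ?_⟩, ⟨p • b, ?_, ?_⟩⟩, ?_⟩
      · show α (p • a) = 0
        rw [h.inva]
        exact ha
      · rcases Sym2.mem_iff.1 ha' with rfl | rfl
        · exact Sym2.mem_mk_left _ _
        · exact Sym2.mem_mk_right _ _
      · show β (p • b) = 0
        rw [h.invb]
        exact hb
      · rcases Sym2.mem_iff.1 hb' with rfl | rfl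
        · exact Sym2.mem_mk_left _ _
        · exact Sym2.mem_mk_right _ _
      · intro hcon
        apply hnY
        intro w hw
        have h1 : p • w ∈ Z := by
          apply hcon
          rcases Sym2.mem_iff.1 hw with rfl | rfl
          · exact Sym2.mem_mk_left _ _
          · exact Sym2.mem_mk_right _ _
        have h2 : α (p • w) = 0 ∧ β (p • w) = 0 := h1
        rw [h.inva, h.invb] at h2
        exact h2
  let actXY : MulAction P ↥(X \ Y) :=
    { smul := fun p e => ⟨p • e.1, hXinv p e.1 e.2⟩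
      one_smul := fun e => Subtype.ext (one_smul P e.1)
      mul_smul := fun p r e => Subtype.ext (mul_smul p r e.1) }
  have hfree : Nat.card P ∣ Nat.card ↥(X \ Y) := by
    apply geoB_free
    rintro p ⟨⟨e, hadj⟩, he⟩ hfix
    by_contra hp
    have hfix' : p • (⟨e, hadj⟩ : G.edgeSet) = ⟨e, hadj⟩ := congrArg Subtype.val hfix
    induction e with
    | _ x y =>
      rw [hsm] at hfix'
      have h1 : s(p • x, p • y) = s(x, y) := congrArg Subtype.val hfix'
      obtain ⟨⟨⟨a, ha, ha'⟩, ⟨b, hb, hb'⟩⟩, hnY⟩ := he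
      have ha0 : α a = 0 := ha
      have hb0 : β b = 0 := hb
      rcases Sym2.eq_iff.1 h1 with ⟨hx, hy⟩ | ⟨hx, hy⟩
      · have h2 := h.fx p hp x y hadj hx hy
        rcases Sym2.mem_iff.1 ha' with rfl | rfl
        · exact h2.1 ha
        · exact h2.2 ha
      · apply hnY
        have hα : α x = α y := by rw [← hx, h.inva]
        have hβ : β x = β y := by rw [← hx, h.invb]
        have hαx : α x = 0 := by
          rcases Sym2.mem_iff.1 ha' with rfl | rfl
          · exact ha0
          · rw [hα]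
            exact ha0
        have hβx : β x = 0 := by
          rcases Sym2.mem_iff.1 hb' with rfl | rfl
          · exact hb0
          · rw [hβ]
            exact hb0
        intro w hw
        rcases Sym2.mem_iff.1 hw with rfl | rfl
        · exact ⟨hαx, hβx⟩
        · exact ⟨hα ▸ hαx, hβ ▸ hβx⟩
  obtain ⟨m, hm⟩ := hfree
  refine ⟨m, ?_⟩
  have h1 : cnt 1 G {x | α x = 0} {x | β x = 0} = Nat.card ↥X := rfl
  rw [h1, ← hm, ← hcardZ]
  have h2 : Nat.card ↥Y = (Nat.card Z).choose 2 := geoB_clique G Z hcl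
  rw [← h2]
  have h3 : Nat.card ↥X = X.ncard := rfl
  have h4 : Nat.card ↥Y = Y.ncard := rfl
  have h5 : Nat.card ↥(X \ Y) = (X \ Y).ncard := rfl
  rw [h3, h4, h5, add_comm, Set.ncard_sdiff_add_ncard_of_subset hYX (Set.toFinite _)]

theorem Geo.cnt_succ {P : Type} [Group P] [Finite P] {V : Type} [Finite V] [MulAction P V]
    {G : SimpleGraph V} {α β : V → ℕ} {q d : ℕ} {z : ℕ → V} (h : Geo P G α β q d z)
    (hq : 0 < q) :
    ∃ m, cnt (d + 1) G {x | α x = 0} {x | β x = 0} = q.choose 2 + Nat.card P * m := by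
  induction d generalizing V with
  | zero => exact geoB_base h
  | succ d ih =>
    obtain ⟨z', hz'⟩ := h.lineGraph hq
    let _ := edgeAct G h.adj
    have := ih hz'
    rw [Pool.Agent.Lib.MP_a38fe7_co.cnt_succ, touch_zero, touch_zero]
    exact this

end Pool.Agent.Lib.MP_a38fe7_co
end

section

/-!
# Moving a group of copies on a path

Let `G = att (pathGraph (N + 1)) R ρ (fun _ : P => ⟨i + 1, _⟩)`, `P = Multiplicative (ZMod q)`: the path
`0, …, N` with `q` copies of `R` at the vertex `i + 1`; `A` = the vertices of the copies.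

Deleting the vertex `0` gives the path with `N` vertices and the copies at `i` (shift by one), deleting the
vertex `N` gives the path with `N` vertices and the copies at `i + 1` (`i + 1 < N`), deleting `A` gives the
path `0, …, N`, deleting `A` and an end vertex gives a path with `N` vertices. So by `incl_excl` (twice)
`B(i + 1) - B(i) = E - E'` with `E = cnt k G A {0}`, `E' = cnt k G A {N}`, where
`B(j) = fk k (pathGraph N) R ρ (Pi.single j q) - lsz k (pathGraph N)`.

`E' = 0` for `k < N - i`: `Sep` with `α` = distance to `A`, `β` = distance to `N`: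
`α (inr _) = 0`, `α (inl j) = |j - (i + 1)| + 1`, `β (inr _) = N - i`, `β (inl j) = N - j`.

`E`: `Geo P G α β q (i + 2) z` with the same `α`, and `β (inl j) = j`,
`β (inr (x, w)) = if w = ρ then i + 2 else i + 3`, `z j = inl (i + 2 - j)`; `P` acts on the copies by
multiplication of the index and trivially on the path. Here `{β = 0} = {inl 0}`.
So `E = 0` for `k < i + 2`, `E = q` for `k = i + 2`, and `E = q.choose 2 + q * m` for `k = i + 3`.
-/

set_option autoImplicit false

namespace Pool.Agent.Lib.MP_a38fe7_co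

open SimpleGraph

/-- one group of `q` copies -/
theorem pathDel_single (k : ℕ) {V W X : Type} [Finite X] [DecidableEq V] (C : SimpleGraph V)
    (R : SimpleGraph W) (ρ : W) (q : ℕ) (hX : Nat.card X = q) (u : V) :
    lsz k (att C R ρ (fun _ : X => u)) = fk k C R ρ (Pi.single u q) := by
  apply lsz_att_eq_fk
  intro v
  by_cases h : u = v
  · subst h
    rw [Pi.single_eq_same, ← hX]
    exact Nat.card_congr (Equiv.subtypeUnivEquiv fun _ => rfl)
  · rw [Pi.single_eq_of_ne (Ne.symm h)]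
    have : IsEmpty {x : X // u = v} := ⟨fun x => h x.2⟩
    exact Nat.card_of_isEmpty

/-- delete one vertex of the base that is no root of a copy -/
theorem pathDel_gen (k : ℕ) {V V' W X : Type} [Finite V] [Finite W] [Finite X] [DecidableEq V]
    [DecidableEq V'] (C : SimpleGraph V) (C' : SimpleGraph V') (R : SimpleGraph W) (ρ : W) (q : ℕ)
    (hX : Nat.card X = q) (u v0 : V) (u' : V') (hu : u ∈ ({v0}ᶜ : Set V))
    (f : C.induce ({v0}ᶜ : Set V) ≃g C') (hf : f ⟨u, hu⟩ = u') :
    (cnt k (att C R ρ (fun _ : X => u)) {a | ∃ x, a = Sum.inr x} {a | a = Sum.inl v0} : ℤ) =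
      (fk k C R ρ (Pi.single u q) - fk k C R ρ 0) -
      (fk k C' R ρ (Pi.single u' q) - fk k C' R ρ 0) := by
  have key := incl_excl k (att C R ρ (fun _ : X => u)) {a | ∃ x, a = Sum.inr x}
    {a | a = Sum.inl v0}
  have h1 : lsz k (att C R ρ (fun _ : X => u)) = fk k C R ρ (Pi.single u q) :=
    pathDel_single k C R ρ q hX u
  have h2 : lsz k ((att C R ρ (fun _ : X => u)).induce {a | ∃ x, a = Sum.inr x}ᶜ) =
      fk k C R ρ 0 := by
    rw [lsz_att_delete k C R ρ (fun _ : X => u) {a | ∃ x, a = Sum.inr x} ∅ Set.univ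
      (fun v => by simp) (fun x w => by simp) (fun x => (x.2 trivial).elim), fk_zero_fun]
    have : IsEmpty ↥(Set.univᶜ : Set X) := ⟨fun x => x.2 trivial⟩
    rw [lsz_att_empty]
    refine lsz_iso k ⟨Equiv.subtypeUnivEquiv fun v => fun h => h, ?_⟩
    intro a b
    exact Iff.rfl
  have h3 : lsz k ((att C R ρ (fun _ : X => u)).induce {a | a = Sum.inl v0}ᶜ) =
      fk k C' R ρ (Pi.single u' q) := by
    rw [lsz_att_delete k C R ρ (fun _ : X => u) {a | a = Sum.inl v0} {v0} ∅
      (fun v => by simp) (fun x w => by simp) (fun x => hu)]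
    rw [← pathDel_single k C' R ρ q hX u']
    refine lsz_att_congr k f R ρ (Equiv.subtypeUnivEquiv fun v => fun h => h) _ _ ?_
    intro x
    exact hf.symm
  have h4 : lsz k ((att C R ρ (fun _ : X => u)).induce
      ({a | ∃ x, a = Sum.inr x} ∪ {a | a = Sum.inl v0})ᶜ) = fk k C' R ρ 0 := by
    rw [lsz_att_delete k C R ρ (fun _ : X => u) ({a | ∃ x, a = Sum.inr x} ∪ {a | a = Sum.inl v0})
      {v0} Set.univ (fun v => by simp) (fun x w => by simp) (fun x => (x.2 trivial).elim),
      fk_zero_fun]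
    have : IsEmpty ↥(Set.univᶜ : Set X) := ⟨fun x => x.2 trivial⟩
    rw [lsz_att_empty]
    exact lsz_iso k f
  rw [h1, h2, h3, h4] at key
  have key' : (fk k C R ρ (Pi.single u q) : ℤ) + fk k C' R ρ 0 =
      fk k C R ρ 0 + fk k C' R ρ (Pi.single u' q) +
      cnt k (att C R ρ (fun _ : X => u)) {a | ∃ x, a = Sum.inr x} {a | a = Sum.inl v0} := by
    exact_mod_cast key
  linarith

/-- the path without its left end -/
def pathDelLeft (N : ℕ) :
    (pathGraph (N + 1)).induce ({(⟨0, by omega⟩ : Fin (N + 1))}ᶜ : Set (Fin (N + 1))) ≃g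
      pathGraph N where
  toFun v := ⟨v.1.1 - 1, by
    have h1 := v.1.2
    have h2 : v.1.1 ≠ 0 := fun h => v.2 (Fin.ext h)
    omega⟩
  invFun w := ⟨⟨w.1 + 1, by omega⟩, fun h => by
    have : w.1 + 1 = 0 := congrArg Fin.val h
    omega⟩
  left_inv v := by
    have h2 : v.1.1 ≠ 0 := fun h => v.2 (Fin.ext h)
    apply Subtype.ext
    apply Fin.ext
    show v.1.1 - 1 + 1 = v.1.1
    omega
  right_inv w := by
    apply Fin.ext
    show w.1 + 1 - 1 = w.1
    omega
  map_rel_iff' := by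
    intro a b
    have ha : a.1.1 ≠ 0 := fun h => a.2 (Fin.ext h)
    have hb : b.1.1 ≠ 0 := fun h => b.2 (Fin.ext h)
    show (pathGraph N).Adj (⟨a.1.1 - 1, _⟩ : Fin N) ⟨b.1.1 - 1, _⟩ ↔
      (pathGraph (N + 1)).Adj a.1 b.1
    rw [pathGraph_adj, pathGraph_adj]
    show (a.1.1 - 1 + 1 = b.1.1 - 1 ∨ b.1.1 - 1 + 1 = a.1.1 - 1) ↔ _
    omega

/-- the path without its right end -/
def pathDelRight (N : ℕ) :
    (pathGraph (N + 1)).induce ({(⟨N, by omega⟩ : Fin (N + 1))}ᶜ : Set (Fin (N + 1))) ≃g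
      pathGraph N where
  toFun v := ⟨v.1.1, by
    have h1 := v.1.2
    have h2 : v.1.1 ≠ N := fun h => v.2 (Fin.ext h)
    omega⟩
  invFun w := ⟨⟨w.1, by omega⟩, fun h => by
    have h1 : w.1 = N := congrArg Fin.val h
    have h2 := w.2
    omega⟩
  left_inv v := rfl
  right_inv w := rfl
  map_rel_iff' := by
    intro a b
    show (pathGraph N).Adj (⟨a.1.1, _⟩ : Fin N) ⟨b.1.1, _⟩ ↔
      (pathGraph (N + 1)).Adj a.1 b.1
    rw [pathGraph_adj, pathGraph_adj]

theorem pathDel_card (q : ℕ) : Nat.card (Multiplicative (ZMod q)) = q := by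
  have : Nat.card (Multiplicative (ZMod q)) = Nat.card (ZMod q) := Nat.card_congr Multiplicative.toAdd
  rw [this, Nat.card_zmod]

/-- delete the left end -/
theorem path_left {W : Type} [Finite W] (R : SimpleGraph W) (ρ : W) (N i q : ℕ)
    (hi : i + 1 < N + 1) (hq : 0 < q) (k : ℕ) :
    (cnt k (att (pathGraph (N + 1)) R ρ
        (fun _ : Multiplicative (ZMod q) => (⟨i + 1, hi⟩ : Fin (N + 1))))
        {a | ∃ x, a = Sum.inr x} {a | a = Sum.inl ⟨0, by omega⟩} : ℤ) =
      (fk k (pathGraph (N + 1)) R ρ (Pi.single ⟨i + 1, hi⟩ q) - fk k (pathGraph (N + 1)) R ρ 0) -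
      (fk k (pathGraph N) R ρ (Pi.single ⟨i, by omega⟩ q) - fk k (pathGraph N) R ρ 0) := by
  have : NeZero q := ⟨hq.ne'⟩
  have : Finite (Multiplicative (ZMod q)) := inferInstanceAs (Finite (ZMod q))
  exact pathDel_gen k (pathGraph (N + 1)) (pathGraph N) R ρ q (pathDel_card q) ⟨i + 1, hi⟩
    ⟨0, by omega⟩ ⟨i, by omega⟩ (fun h => by
      have h1 : i + 1 = 0 := congrArg Fin.val h
      omega) (pathDelLeft N) rfl

/-- delete the right end -/
theorem path_right {W : Type} [Finite W] (R : SimpleGraph W) (ρ : W) (N i q : ℕ)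
    (hi : i + 1 < N) (hq : 0 < q) (k : ℕ) :
    (cnt k (att (pathGraph (N + 1)) R ρ
        (fun _ : Multiplicative (ZMod q) => (⟨i + 1, by omega⟩ : Fin (N + 1))))
        {a | ∃ x, a = Sum.inr x} {a | a = Sum.inl ⟨N, by omega⟩} : ℤ) =
      (fk k (pathGraph (N + 1)) R ρ (Pi.single ⟨i + 1, by omega⟩ q) -
        fk k (pathGraph (N + 1)) R ρ 0) -
      (fk k (pathGraph N) R ρ (Pi.single ⟨i + 1, hi⟩ q) - fk k (pathGraph N) R ρ 0) := by
  have : NeZero q := ⟨hq.ne'⟩
  have : Finite (Multiplicative (ZMod q)) := inferInstanceAs (Finite (ZMod q))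
  exact pathDel_gen k (pathGraph (N + 1)) (pathGraph N) R ρ q (pathDel_card q) ⟨i + 1, by omega⟩
    ⟨N, by omega⟩ ⟨i + 1, hi⟩ (fun h => by
      have h1 : i + 1 = N := congrArg Fin.val h
      omega) (pathDelRight N) rfl

end Pool.Agent.Lib.MP_a38fe7_co
end

section

/-!
# Moving a group of copies on a path

Let `G = att (pathGraph (N + 1)) R ρ (fun _ : P => ⟨i + 1, _⟩)`, `P = Multiplicative (ZMod q)`: the path
`0, …, N` with `q` copies of `R` at the vertex `i + 1`; `A` = the vertices of the copies.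

Deleting the vertex `0` gives the path with `N` vertices and the copies at `i` (shift by one), deleting the
vertex `N` gives the path with `N` vertices and the copies at `i + 1` (`i + 1 < N`), deleting `A` gives the
path `0, …, N`, deleting `A` and an end vertex gives a path with `N` vertices. So by `incl_excl` (twice)
`B(i + 1) - B(i) = E - E'` with `E = cnt k G A {0}`, `E' = cnt k G A {N}`, where
`B(j) = fk k (pathGraph N) R ρ (Pi.single j q) - lsz k (pathGraph N)`.

`E' = 0` for `k < N - i`: `Sep` with `α` = distance to `A`, `β` = distance to `N`: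
`α (inr _) = 0`, `α (inl j) = |j - (i + 1)| + 1`, `β (inr _) = N - i`, `β (inl j) = N - j`.

`E`: `Geo P G α β q (i + 2) z` with the same `α`, and `β (inl j) = j`,
`β (inr (x, w)) = if w = ρ then i + 2 else i + 3`, `z j = inl (i + 2 - j)`; `P` acts on the copies by
multiplication of the index and trivially on the path. Here `{β = 0} = {inl 0}`.
So `E = 0` for `k < i + 2`, `E = q` for `k = i + 2`, and `E = q.choose 2 + q * m` for `k = i + 3`.
-/

set_option autoImplicit false

namespace Pool.Agent.Lib.MP_a38fe7_co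

open SimpleGraph

/-- the group acts on the index of the copies -/
@[reducible] def pgAct {W : Type} (N q : ℕ) :
    MulAction (Multiplicative (ZMod q)) (Fin (N + 1) ⊕ Multiplicative (ZMod q) × W) where
  smul p a := Sum.map id (fun xw => (p * xw.1, xw.2)) a
  one_smul a := by
    rcases a with v | ⟨x, w⟩
    · rfl
    · show Sum.inr (1 * x, w) = Sum.inr (x, w)
      rw [one_mul]
  mul_smul p r a := by
    rcases a with v | ⟨x, w⟩
    · rfl
    · show Sum.inr ((p * r) * x, w) = Sum.inr (p * (r * x), w)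
      rw [mul_assoc]

/-- the distance to the copies at the vertex `i + 1` -/
def pgA {W X : Type} (N i : ℕ) : Fin (N + 1) ⊕ X × W → ℕ :=
  Sum.elim (fun j => ((j : ℕ) - (i + 1)) + ((i + 1) - (j : ℕ)) + 1) (fun _ => 0)

open Classical in
/-- the distance to the left end, a little larger on the copies -/
noncomputable def pgB {W X : Type} (ρ : W) (N i : ℕ) : Fin (N + 1) ⊕ X × W → ℕ :=
  Sum.elim (fun j => (j : ℕ)) (fun xw => if xw.2 = ρ then i + 2 else i + 3)

theorem pgB_root {W X : Type} (ρ : W) (N i : ℕ) (x : X) :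
    pgB ρ N i (Sum.inr (x, ρ)) = i + 2 := by
  simp [pgB]

theorem pgB_ne {W X : Type} (ρ : W) (N i : ℕ) (x : X) (w : W) (hw : w ≠ ρ) :
    pgB ρ N i (Sum.inr (x, w)) = i + 3 := by
  simp [pgB, hw]

theorem pgB_cases {W X : Type} (ρ : W) (N i : ℕ) (x : X) (w : W) :
    (w = ρ ∧ pgB ρ N i (Sum.inr (x, w)) = i + 2) ∨
      (w ≠ ρ ∧ pgB ρ N i (Sum.inr (x, w)) = i + 3) := by
  by_cases hw : w = ρ
  · subst hw
    exact Or.inl ⟨rfl, pgB_root w N i x⟩
  · exact Or.inr ⟨hw, pgB_ne ρ N i x w hw⟩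

theorem pgB_inl {W X : Type} (ρ : W) (N i : ℕ) (j : Fin (N + 1)) :
    pgB ρ N i (Sum.inl j : Fin (N + 1) ⊕ X × W) = j := rfl

theorem pgA_inl {W X : Type} (N i : ℕ) (j : Fin (N + 1)) :
    pgA N i (Sum.inl j : Fin (N + 1) ⊕ X × W) =
      ((j : ℕ) - (i + 1)) + ((i + 1) - (j : ℕ)) + 1 := rfl

theorem pgA_inr {W X : Type} (N i : ℕ) (xw : X × W) :
    pgA N i (Sum.inr xw : Fin (N + 1) ⊕ X × W) = 0 := rfl

theorem pg_geo {W : Type} (R : SimpleGraph W) (ρ : W) (N i q : ℕ)
    (hi : i + 1 < N + 1) :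
    @Geo (Multiplicative (ZMod q)) _ _ (pgAct N q) (att (pathGraph (N + 1)) R ρ
        (fun _ : Multiplicative (ZMod q) => (⟨i + 1, hi⟩ : Fin (N + 1))))
      (pgA N i) (pgB ρ N i) (Nat.card (ZMod q)) (i + 2)
      (fun j => Sum.inl ⟨min (i + 2 - j) (i + 1), by omega⟩) := by
  let _ : MulAction (Multiplicative (ZMod q)) (Fin (N + 1) ⊕ Multiplicative (ZMod q) × W) :=
    pgAct N q
  have hsl : ∀ (p : Multiplicative (ZMod q)) (j : Fin (N + 1)),
      p • (Sum.inl j : Fin (N + 1) ⊕ Multiplicative (ZMod q) × W) = Sum.inl j := fun _ _ => rfl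
  have hsr : ∀ (p x : Multiplicative (ZMod q)) (w : W),
      p • (Sum.inr (x, w) : Fin (N + 1) ⊕ Multiplicative (ZMod q) × W) = Sum.inr (p * x, w) :=
    fun _ _ _ => rfl
  refine ⟨⟨?_, ?_, ?_⟩, ?_, ?_, ?_, ?_, ?_, ?_, ?_, ?_, ?_, ?_⟩
  · -- lipa
    rintro (j | ⟨x, w⟩) (j' | ⟨x', w'⟩) h
    · have h' : (pathGraph (N + 1)).Adj j j' := h
      rw [pathGraph_adj] at h'
      simp only [pgA_inl]
      omega
    · obtain ⟨h1, -⟩ := h
      have h1' : i + 1 = (j : ℕ) := congrArg Fin.val h1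
      simp only [pgA_inl, pgA_inr]
      omega
    · simp only [pgA_inr]
      omega
    · simp only [pgA_inr]
      omega
  · -- lipb
    rintro (j | ⟨x, w⟩) (j' | ⟨x', w'⟩) h
    · have h' : (pathGraph (N + 1)).Adj j j' := h
      rw [pathGraph_adj] at h'
      simp only [pgB_inl]
      omega
    · obtain ⟨h1, h2⟩ := h
      have h1' : i + 1 = (j : ℕ) := congrArg Fin.val h1
      have h2' : w' = ρ := h2
      subst h2'
      rw [pgB_root, pgB_inl]
      omega
    · obtain ⟨h1, h2⟩ := h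
      have h1' : i + 1 = (j' : ℕ) := congrArg Fin.val h1
      have h2' : w = ρ := h2
      subst h2'
      rw [pgB_root, pgB_inl]
      omega
    · rcases pgB_cases ρ N i x w with ⟨-, h1⟩ | ⟨-, h1⟩ <;>
      rcases pgB_cases ρ N i x' w' with ⟨-, h2⟩ | ⟨-, h2⟩ <;>
      rw [h1, h2] <;> omega
  · -- sum
    rintro (j | ⟨x, w⟩)
    · simp only [pgA_inl, pgB_inl]
      omega
    · rcases pgB_cases ρ N i x w with ⟨-, h1⟩ | ⟨-, h1⟩ <;> rw [h1] <;> omega
  · -- card
    have e : {x : Fin (N + 1) ⊕ Multiplicative (ZMod q) × W //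
        pgA N i x = 0 ∧ pgB ρ N i x = i + 2} ≃ ZMod q :=
      { toFun := fun x => match x with
          | ⟨.inl j, h⟩ => 0
          | ⟨.inr xw, h⟩ => Multiplicative.toAdd xw.1
        invFun := fun x => ⟨Sum.inr (Multiplicative.ofAdd x, ρ), rfl, pgB_root ρ N i _⟩
        left_inv := by
          rintro ⟨j | ⟨x, w⟩, h⟩
          · exfalso
            have h1 := h.1
            simp only [pgA_inl] at h1
            omega
          · rcases pgB_cases ρ N i x w with ⟨hw, -⟩ | ⟨-, h1⟩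
            · subst hw
              rfl
            · exfalso
              have h2 := h.2
              rw [h1] at h2
              omega
        right_inv := by
          intro x
          rfl }
    exact Nat.card_congr e
  · -- adj
    rintro p (j | ⟨x, w⟩) (j' | ⟨x', w'⟩) h
    · exact h
    · exact h
    · exact h
    · obtain ⟨h1, h2⟩ := h
      have h1' : x = x' := h1
      subst h1'
      exact ⟨rfl, h2⟩
  · -- inva
    rintro p (j | ⟨x, w⟩)
    · rfl
    · rfl
  · -- invb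
    rintro p (j | ⟨x, w⟩)
    · rfl
    · rfl
  · -- fx
    intro p hp
    have key : ∀ a : Fin (N + 1) ⊕ Multiplicative (ZMod q) × W, p • a = a →
        ¬ pgA N i a = 0 := by
      rintro (j | ⟨x, w⟩) ha
      · simp only [pgA_inl]
        omega
      · exfalso
        rw [hsr] at ha
        have h1 := congrArg Prod.fst (Sum.inr.inj ha)
        exact hp (mul_eq_right.1 h1)
    intro a b _ ha hb
    exact ⟨key a ha, key b hb⟩
  · -- adj0
    intro h0
    omega
  · -- adj1
    rintro - (j | ⟨x, w⟩) h1 h2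
    · simp only [pgA_inl] at h1
      omega
    · rcases pgB_cases ρ N i x w with ⟨hw, -⟩ | ⟨-, h3⟩
      · refine ⟨?_, hw⟩
        apply Fin.ext
        show i + 1 = min (i + 2 - 1) (i + 1)
        omega
      · rw [h3] at h2
        omega
  · -- zval
    intro j hj1 hj2
    simp only [pgA_inl, pgB_inl]
    omega
  · -- zuniq
    rintro j hj1 hj2 (j' | ⟨x, w⟩) h1 h2
    · rw [pgB_inl] at h2
      congr 1
      apply Fin.ext
      show (j' : ℕ) = min (i + 2 - j) (i + 1)
      omega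
    · rw [pgA_inr] at h1
      omega
  · -- zadj
    intro j hj1 hj2
    show (pathGraph (N + 1)).Adj _ _
    rw [pathGraph_adj]
    right
    show min (i + 2 - (j + 1)) (i + 1) + 1 = min (i + 2 - j) (i + 1)
    omega

/-- the distances to the copies and to the left end -/
theorem path_geo {W : Type} [Finite W] (R : SimpleGraph W) (ρ : W) (N i q : ℕ)
    (hi : i + 1 < N + 1) (hq : 0 < q) (k : ℕ) :
    ∃ E : ℕ, E = cnt k (att (pathGraph (N + 1)) R ρ
        (fun _ : Multiplicative (ZMod q) => (⟨i + 1, hi⟩ : Fin (N + 1))))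
        {a | ∃ x, a = Sum.inr x} {a | a = Sum.inl ⟨0, by omega⟩} ∧
      (k < i + 2 → E = 0) ∧ (k = i + 2 → E = q) ∧ (k = i + 3 → ∃ m, E = q.choose 2 + q * m) := by
  have : NeZero q := ⟨by omega⟩
  have : Finite (Multiplicative (ZMod q)) := inferInstanceAs (Finite (ZMod q))
  let _ : MulAction (Multiplicative (ZMod q)) (Fin (N + 1) ⊕ Multiplicative (ZMod q) × W) :=
    pgAct N q
  have hg := pg_geo R ρ N i q hi
  have hcard : Nat.card (ZMod q) = q := Nat.card_zmod q
  have hcard' : Nat.card (Multiplicative (ZMod q)) = q := Nat.card_zmod q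
  rw [hcard] at hg
  have hA : {a | ∃ x, a = Sum.inr x} =
      {a : Fin (N + 1) ⊕ Multiplicative (ZMod q) × W | pgA N i a = 0} := by
    ext a
    rcases a with j | x
    · simp [pgA]
    · exact ⟨fun _ => rfl, fun _ => ⟨x, rfl⟩⟩
  have hB : {a | a = Sum.inl ⟨0, by omega⟩} =
      {a : Fin (N + 1) ⊕ Multiplicative (ZMod q) × W | pgB ρ N i a = 0} := by
    ext a
    rcases a with j | ⟨x, w⟩
    · constructor
      · intro h
        have h1 := Sum.inl.inj h
        show (j : ℕ) = 0
        rw [h1]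
      · intro h
        have h1 : (j : ℕ) = 0 := h
        exact congrArg Sum.inl (Fin.ext h1)
    · constructor
      · intro h
        cases h
      · intro h
        have h0 : pgB ρ N i (Sum.inr (x, w)) = 0 := h
        exfalso
        rcases pgB_cases ρ N i x w with ⟨-, h1⟩ | ⟨-, h1⟩ <;> rw [h1] at h0 <;> omega
  rw [hA, hB]
  refine ⟨_, rfl, ?_, ?_, ?_⟩
  · intro hk
    exact hg.toSep.cnt_eq_zero hk
  · intro hk
    subst hk
    exact hg.cnt_eq hq
  · intro hk
    subst hk
    obtain ⟨m, hm⟩ := hg.cnt_succ hq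
    rw [hcard'] at hm
    exact ⟨m, hm⟩

/-- the distance to the right end -/
theorem path_sep {W : Type} (R : SimpleGraph W) (ρ : W) (N i q : ℕ)
    (hi : i + 1 < N + 1) (k : ℕ) (hk : k < N - i) :
    cnt k (att (pathGraph (N + 1)) R ρ
        (fun _ : Multiplicative (ZMod q) => (⟨i + 1, hi⟩ : Fin (N + 1))))
        {a | ∃ x, a = Sum.inr x} {a | a = Sum.inl ⟨N, by omega⟩} = 0 := by
  have hs : Sep (att (pathGraph (N + 1)) R ρ
      (fun _ : Multiplicative (ZMod q) => (⟨i + 1, hi⟩ : Fin (N + 1)))) (pgA N i)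
      (Sum.elim (fun j : Fin (N + 1) => N - (j : ℕ)) (fun _ => N - i)) (N - i) := by
    refine ⟨?_, ?_, ?_⟩
    · rintro (j | ⟨x, w⟩) (j' | ⟨x', w'⟩) h
      · have h' : (pathGraph (N + 1)).Adj j j' := h
        rw [pathGraph_adj] at h'
        simp only [pgA, Sum.elim_inl]
        omega
      · obtain ⟨h1, -⟩ := h
        have h1' : i + 1 = (j : ℕ) := congrArg Fin.val h1
        simp only [pgA, Sum.elim_inl, Sum.elim_inr]
        omega
      · simp only [pgA, Sum.elim_inl, Sum.elim_inr]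
        omega
      · simp only [pgA, Sum.elim_inr]
        omega
    · rintro (j | ⟨x, w⟩) (j' | ⟨x', w'⟩) h
      · have h' : (pathGraph (N + 1)).Adj j j' := h
        rw [pathGraph_adj] at h'
        simp only [Sum.elim_inl]
        omega
      · obtain ⟨h1, -⟩ := h
        have h1' : i + 1 = (j : ℕ) := congrArg Fin.val h1
        simp only [Sum.elim_inl, Sum.elim_inr]
        omega
      · obtain ⟨h1, -⟩ := h
        have h1' : i + 1 = (j' : ℕ) := congrArg Fin.val h1
        simp only [Sum.elim_inl, Sum.elim_inr]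
        omega
      · simp only [Sum.elim_inr]
        omega
    · rintro (j | ⟨x, w⟩)
      · have := j.2
        simp only [pgA, Sum.elim_inl]
        omega
      · simp only [pgA, Sum.elim_inr]
        omega
  have h1 := hs.cnt_eq_zero hk
  have hA : {a | ∃ x, a = Sum.inr x} =
      {a : Fin (N + 1) ⊕ Multiplicative (ZMod q) × W | pgA N i a = 0} := by
    ext a
    rcases a with j | x
    · simp [pgA]
    · exact ⟨fun _ => rfl, fun _ => ⟨x, rfl⟩⟩
  have hB : {a | a = Sum.inl ⟨N, by omega⟩} =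
      {a : Fin (N + 1) ⊕ Multiplicative (ZMod q) × W |
        (Sum.elim (fun j : Fin (N + 1) => N - (j : ℕ)) (fun _ => N - i) : _ → ℕ) a = 0} := by
    ext a
    rcases a with j | x
    · simp only [Set.mem_ofPred_eq, Sum.inl.injEq, Sum.elim_inl, Fin.ext_iff]
      have := j.2
      omega
    · simp only [Set.mem_ofPred_eq, Sum.elim_inr, reduceCtorEq, false_iff]
      omega
  rw [hA, hB]
  exact h1

end Pool.Agent.Lib.MP_a38fe7_co
end

section

/-!
# Moving a group of copies on a path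

Let `G = att (pathGraph (N + 1)) R ρ (fun _ : P => ⟨i + 1, _⟩)`, `P = Multiplicative (ZMod q)`: the path
`0, …, N` with `q` copies of `R` at the vertex `i + 1`; `A` = the vertices of the copies.

Deleting the vertex `0` gives the path with `N` vertices and the copies at `i` (shift by one), deleting the
vertex `N` gives the path with `N` vertices and the copies at `i + 1` (`i + 1 < N`), deleting `A` gives the
path `0, …, N`, deleting `A` and an end vertex gives a path with `N` vertices. So by `incl_excl` (twice)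
`B(i + 1) - B(i) = E - E'` with `E = cnt k G A {0}`, `E' = cnt k G A {N}`, where
`B(j) = fk k (pathGraph N) R ρ (Pi.single j q) - lsz k (pathGraph N)`.

`E' = 0` for `k < N - i`: `Sep` with `α` = distance to `A`, `β` = distance to `N`:
`α (inr _) = 0`, `α (inl j) = |j - (i + 1)| + 1`, `β (inr _) = N - i`, `β (inl j) = N - j`.

`E`: `Geo P G α β q (i + 2) z` with the same `α`, and `β (inl j) = j`,
`β (inr (x, w)) = if w = ρ then i + 2 else i + 3`, `z j = inl (i + 2 - j)`; `P` acts on the copies by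
multiplication of the index and trivially on the path. Here `{β = 0} = {inl 0}`.
So `E = 0` for `k < i + 2`, `E = q` for `k = i + 2`, and `E = q.choose 2 + q * m` for `k = i + 3`.
-/

set_option autoImplicit false

namespace Pool.Agent.Lib.MP_a38fe7_co

open SimpleGraph

theorem path_shift {W : Type} [Finite W] (R : SimpleGraph W) (ρ : W) (N i q : ℕ)
    (hi : i + 1 < N) (hq : 0 < q) (k : ℕ) (hk : k < N - i) :
    ∃ E : ℕ, (fk k (pathGraph N) R ρ (Pi.single ⟨i + 1, hi⟩ q) : ℤ) =
        fk k (pathGraph N) R ρ (Pi.single ⟨i, by omega⟩ q) + E ∧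
      (k < i + 2 → E = 0) ∧ (k = i + 2 → E = q) ∧ (k = i + 3 → ∃ m, E = q.choose 2 + q * m) := by
  obtain ⟨E, hE, h⟩ := path_geo R ρ N i q (by omega) hq k
  refine ⟨E, ?_, h⟩
  have h1 := path_left R ρ N i q (by omega) hq k
  have h2 := path_right R ρ N i q hi hq k
  rw [path_sep R ρ N i q (by omega) k hk] at h2
  rw [← hE] at h1
  push_cast at h2
  linarith

end Pool.Agent.Lib.MP_a38fe7_co
end
end
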