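import Mathlib
import Pool.Agent.Lib.MP_a38fe7_co.Path

/-!
# A graph with a long tail

`tail L D S`: a path with the vertices `0, …, L - 1`, whose last vertex is joined to the vertices in `S`
of the graph `D`.

`tail_red`: the vertices of the iterated line graph that touch a group of copies attached to the path at
`i` do not reach `D` as long as `k ≤ L - i`, so their number is the same without `D`.
Proof. `G = att (tail L D S) R ρ (fun _ : P => inl i)`, `A` = vertices of the copies, `B` = vertices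
`inl (inr u)`. `Sep` with `α (inr _) = 0`, `α (inl (inl j)) = |j - i| + 1`, `α (inl (inr u)) = L - i + 1`,
`β (inl (inr u)) = 0`, `β (inl (inl j)) = L - j`, `β (inr _) = L - i + 1`, `d = L - i + 1`, so
`cnt k G A B = 0` for `k ≤ L - i`; then `incl_excl`, `lsz_att_delete`, `lsz_att_congr`, `lsz_att_eq_fk`.
(`G` without `B` is `att (pathGraph L) R ρ (fun _ => i)`.)
-/

set_option autoImplicit false

namespace Pool.Agent.Lib.MP_a38fe7_co

open SimpleGraph

/-- A path with `L` vertices, whose last vertex is joined to the vertices in `S` of the graph `D`. -/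
def tail {U : Type} (L : ℕ) (D : SimpleGraph U) (S : Set U) : SimpleGraph (Fin L ⊕ U) where
  Adj
    | .inl i, .inl j => (pathGraph L).Adj i j
    | .inl i, .inr u => i.val + 1 = L ∧ u ∈ S
    | .inr u, .inl i => i.val + 1 = L ∧ u ∈ S
    | .inr u, .inr u' => D.Adj u u'
  symm := ⟨by
    rintro (v | u) (v' | u') h
    · exact (pathGraph L).symm.symm _ _ h
    · exact h
    · exact h
    · exact D.symm.symm _ _ h⟩
  loopless := ⟨by
    rintro (v | u) h
    · exact (pathGraph L).loopless.irrefl _ h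
    · exact D.loopless.irrefl _ h⟩

/-- distance to the copies -/
def tlA {U X W : Type} (L i : ℕ) : (Fin L ⊕ U) ⊕ X × W → ℕ :=
  Sum.elim (Sum.elim (fun j => ((j : ℕ) - i) + (i - (j : ℕ)) + 1) (fun _ => L - i + 1)) (fun _ => 0)

/-- distance to `D` -/
def tlB {U X W : Type} (L i : ℕ) : (Fin L ⊕ U) ⊕ X × W → ℕ :=
  Sum.elim (Sum.elim (fun j => L - (j : ℕ)) (fun _ => 0)) (fun _ => L - i + 1)

theorem tl_sep {U W X : Type} (L : ℕ) (D : SimpleGraph U) (S : Set U) (R : SimpleGraph W) (ρ : W)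
    (i : Fin L) :
    Sep (att (tail L D S) R ρ (fun _ : X => Sum.inl i)) (tlA L i.val) (tlB L i.val)
      (L - i.val + 1) := by
  have hi := i.2
  refine ⟨?_, ?_, ?_⟩
  · rintro ((j | u) | x) ((j' | u') | x') h
    · have h' : (pathGraph L).Adj j j' := h
      rw [pathGraph_adj] at h'
      simp only [tlA, Sum.elim_inl]
      omega
    · have h' : j.val + 1 = L ∧ u' ∈ S := h
      simp only [tlA, Sum.elim_inl, Sum.elim_inr]
      omega
    · have h' : (Sum.inl i : Fin L ⊕ U) = Sum.inl j ∧ x'.2 = ρ := h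
      have h1 : i = j := Sum.inl.inj h'.1
      simp only [tlA, Sum.elim_inl, Sum.elim_inr, h1]
      omega
    · have h' : j'.val + 1 = L ∧ u ∈ S := h
      simp only [tlA, Sum.elim_inl, Sum.elim_inr]
      omega
    · simp only [tlA, Sum.elim_inl, Sum.elim_inr]
      omega
    · have h' : (Sum.inl i : Fin L ⊕ U) = Sum.inr u ∧ x'.2 = ρ := h
      cases h'.1
    · simp only [tlA, Sum.elim_inr]
      omega
    · simp only [tlA, Sum.elim_inr]
      omega
    · simp only [tlA, Sum.elim_inr]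
      omega
  · rintro ((j | u) | x) ((j' | u') | x') h
    · have h' : (pathGraph L).Adj j j' := h
      rw [pathGraph_adj] at h'
      simp only [tlB, Sum.elim_inl]
      omega
    · have h' : j.val + 1 = L ∧ u' ∈ S := h
      simp only [tlB, Sum.elim_inl, Sum.elim_inr]
      omega
    · have h' : (Sum.inl i : Fin L ⊕ U) = Sum.inl j ∧ x'.2 = ρ := h
      have h1 : i = j := Sum.inl.inj h'.1
      simp only [tlB, Sum.elim_inl, Sum.elim_inr, h1]
      omega
    · simp only [tlB, Sum.elim_inl, Sum.elim_inr]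
      omega
    · simp only [tlB, Sum.elim_inl, Sum.elim_inr]
      omega
    · simp only [tlB, Sum.elim_inl, Sum.elim_inr]
      omega
    · have h' : (Sum.inl i : Fin L ⊕ U) = Sum.inl j' ∧ x.2 = ρ := h
      have h1 : i = j' := Sum.inl.inj h'.1
      simp only [tlB, Sum.elim_inl, Sum.elim_inr, h1]
      omega
    · have h' : (Sum.inl i : Fin L ⊕ U) = Sum.inr u' ∧ x.2 = ρ := h
      cases h'.1
    · simp only [tlB, Sum.elim_inr]
      omega
  · rintro ((j | u) | x)
    · simp only [tlA, tlB, Sum.elim_inl]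
      omega
    · simp only [tlA, tlB, Sum.elim_inl, Sum.elim_inr]
      omega
    · simp only [tlA, tlB, Sum.elim_inr]
      omega

/-- `C` without an empty set of vertices -/
def tl_emptyIso {V : Type} (C : SimpleGraph V) : C.induce (∅ : Set V)ᶜ ≃g C where
  toEquiv := ⟨fun x => x.1, fun x => ⟨x, fun h => h⟩, fun _ => rfl, fun _ => rfl⟩
  map_rel_iff' := Iff.rfl

/-- deleting all copies -/
theorem tl_delete_copies (k : ℕ) {V W X : Type} (C : SimpleGraph V) (R : SimpleGraph W) (ρ : W)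
    (ℓ : X → V) : lsz k ((att C R ρ ℓ).induce {a | ∃ x, a = Sum.inr x}ᶜ) = lsz k C := by
  have h : ∀ x : ↥(Set.univ : Set X)ᶜ, ℓ x.1 ∈ (∅ : Set V)ᶜ := fun x => absurd trivial x.2
  rw [lsz_att_delete k C R ρ ℓ {a | ∃ x, a = Sum.inr x} ∅ Set.univ (by simp) (by
    intro x w
    exact ⟨fun _ => trivial, fun _ => ⟨(x, w), rfl⟩⟩) h]
  have : IsEmpty ↥(Set.univ : Set X)ᶜ := ⟨fun x => x.2 trivial⟩
  rw [lsz_att_empty]
  exact lsz_iso k (tl_emptyIso C)

/-- the tail without `D` is a path -/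
def tl_pathIso {U : Type} (L : ℕ) (D : SimpleGraph U) (S : Set U) :
    (tail L D S).induce {a | ∃ u, a = Sum.inr u}ᶜ ≃g pathGraph L where
  toEquiv :=
    { toFun := fun x => match x with
        | ⟨.inl j, _⟩ => j
        | ⟨.inr u, h⟩ => absurd ⟨u, rfl⟩ h
      invFun := fun j => ⟨Sum.inl j, by rintro ⟨u, hu⟩; cases hu⟩
      left_inv := by
        rintro ⟨j | u, h⟩
        · rfl
        · exact absurd ⟨u, rfl⟩ h
      right_inv := fun _ => rfl }
  map_rel_iff' := by
    rintro ⟨j | u, h⟩ ⟨j' | u', h'⟩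
    · exact Iff.rfl
    · exact absurd ⟨u', rfl⟩ h'
    · exact absurd ⟨u, rfl⟩ h
    · exact absurd ⟨u, rfl⟩ h

theorem tail_red {U W : Type} [Finite U] [Finite W] [DecidableEq U] (L : ℕ) (D : SimpleGraph U)
    (S : Set U) (R : SimpleGraph W) (ρ : W) (i : Fin L) (q : ℕ) (hq : 0 < q) (k : ℕ)
    (hk : k ≤ L - i.val) :
    (fk k (tail L D S) R ρ (Pi.single (Sum.inl i) q) : ℤ) - fk k (tail L D S) R ρ 0 =
      fk k (pathGraph L) R ρ (Pi.single i q) - fk k (pathGraph L) R ρ 0 := by
  classical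
  set G := att (tail L D S) R ρ (fun _ : Fin q => Sum.inl i) with hG
  set A : Set ((Fin L ⊕ U) ⊕ Fin q × W) := {a | ∃ x, a = Sum.inr x} with hA
  set B : Set ((Fin L ⊕ U) ⊕ Fin q × W) := {a | ∃ u, a = Sum.inl (Sum.inr u)} with hB
  have hsep := tl_sep (X := Fin q) L D S R ρ i
  have h0 := hsep.cnt_eq_zero (k := k) (by omega)
  have hA' : {x : (Fin L ⊕ U) ⊕ Fin q × W | tlA L i.val x = 0} = A := by
    ext a
    rcases a with (j | u) | x
    · simp [hA, tlA]
    · simp [hA, tlA]
    · exact ⟨fun _ => ⟨x, rfl⟩, fun _ => rfl⟩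
  have hB' : {x : (Fin L ⊕ U) ⊕ Fin q × W | tlB L i.val x = 0} = B := by
    ext a
    rcases a with (j | u) | x
    · have := j.2
      simp only [hB, tlB, Set.mem_ofPred_eq, Sum.elim_inl, Sum.inl.injEq, reduceCtorEq,
        exists_false, iff_false]
      omega
    · exact ⟨fun _ => ⟨u, rfl⟩, fun _ => rfl⟩
    · simp [hB, tlB]
  rw [hA', hB'] at h0
  have hie := incl_excl k G A B
  rw [← hG] at h0
  rw [h0, add_zero] at hie
  have e1 : lsz k G = fk k (tail L D S) R ρ (Pi.single (Sum.inl i) q) := by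
    refine lsz_att_eq_fk k _ R ρ _ _ fun v => ?_
    by_cases hv : v = Sum.inl i
    · subst hv
      rw [Pi.single_eq_same]
      have e : {x : Fin q // (Sum.inl i : Fin L ⊕ U) = Sum.inl i} ≃ Fin q :=
        Equiv.subtypeUnivEquiv (fun _ => rfl)
      rw [Nat.card_congr e, Nat.card_eq_fintype_card, Fintype.card_fin]
    · rw [Pi.single_eq_of_ne hv]
      have : IsEmpty {x : Fin q // (Sum.inl i : Fin L ⊕ U) = v} := ⟨fun x => hv x.2.symm⟩
      exact Nat.card_of_isEmpty
  have e2 : lsz k (G.induce Aᶜ) = fk k (tail L D S) R ρ 0 := by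
    rw [fk_zero_fun]
    exact tl_delete_copies k _ R ρ _
  have e3 : lsz k (G.induce Bᶜ) = fk k (pathGraph L) R ρ (Pi.single i q) := by
    have hh : ∀ x : ↥(∅ : Set (Fin q))ᶜ,
        (Sum.inl i : Fin L ⊕ U) ∈ ({a | ∃ u, a = Sum.inr u} : Set (Fin L ⊕ U))ᶜ := by
      rintro x ⟨u, hu⟩
      cases hu
    rw [lsz_att_delete k (tail L D S) R ρ (fun _ : Fin q => Sum.inl i) B {a | ∃ u, a = Sum.inr u} ∅
      (by
        intro v
        rcases v with j | u
        · constructor
          · rintro ⟨u, hu⟩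
            cases hu
          · rintro ⟨u, hu⟩
            cases hu
        · exact ⟨fun _ => ⟨u, rfl⟩, fun _ => ⟨u, rfl⟩⟩)
      (by
        intro x w
        constructor
        · rintro ⟨u, hu⟩
          cases hu
        · intro h
          exact h.elim) hh]
    have e4 := lsz_att_congr k (tl_pathIso L D S) R ρ
      (⟨fun x => x.1, fun x => ⟨x, fun h => h⟩, fun _ => rfl, fun _ => rfl⟩ :
        ↥(∅ : Set (Fin q))ᶜ ≃ Fin q)
      (fun x : ↥(∅ : Set (Fin q))ᶜ => (⟨Sum.inl i, hh x⟩ :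
        ↥({a | ∃ u, a = Sum.inr u} : Set (Fin L ⊕ U))ᶜ)) (fun _ => i) (fun _ => rfl)
    rw [e4]
    refine lsz_att_eq_fk k _ R ρ _ _ fun v => ?_
    by_cases hv : v = i
    · subst hv
      rw [Pi.single_eq_same]
      have e : {x : Fin q // v = v} ≃ Fin q := Equiv.subtypeUnivEquiv (fun _ => rfl)
      rw [Nat.card_congr e, Nat.card_eq_fintype_card, Fintype.card_fin]
    · rw [Pi.single_eq_of_ne hv]
      have : IsEmpty {x : Fin q // i = v} := ⟨fun x => hv x.2.symm⟩
      exact Nat.card_of_isEmpty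
  have e5 : lsz k (G.induce (A ∪ B)ᶜ) = fk k (pathGraph L) R ρ 0 := by
    rw [fk_zero_fun]
    have hh : ∀ x : ↥(Set.univ : Set (Fin q))ᶜ,
        (Sum.inl i : Fin L ⊕ U) ∈ ({a | ∃ u, a = Sum.inr u} : Set (Fin L ⊕ U))ᶜ :=
      fun x => absurd trivial x.2
    rw [lsz_att_delete k (tail L D S) R ρ (fun _ : Fin q => Sum.inl i) (A ∪ B)
      {a | ∃ u, a = Sum.inr u} Set.univ
      (by
        intro v
        rcases v with j | u
        · constructor
          · rintro (⟨u, hu⟩ | ⟨u, hu⟩)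
            · cases hu
            · cases hu
          · rintro ⟨u, hu⟩
            cases hu
        · exact ⟨fun _ => ⟨u, rfl⟩, fun _ => Or.inr ⟨u, rfl⟩⟩)
      (by
        intro x w
        exact ⟨fun _ => trivial, fun _ => Or.inl ⟨(x, w), rfl⟩⟩) hh]
    have : IsEmpty ↥(Set.univ : Set (Fin q))ᶜ := ⟨fun x => x.2 trivial⟩
    rw [lsz_att_empty]
    exact lsz_iso k (tl_pathIso L D S)
  rw [e1, e2, e3, e5] at hie
  have hie' : (fk k (tail L D S) R ρ (Pi.single (Sum.inl i) q) : ℤ) + fk k (pathGraph L) R ρ 0 =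
      fk k (tail L D S) R ρ 0 + fk k (pathGraph L) R ρ (Pi.single i q) := by
    exact_mod_cast hie
  linarith

end Pool.Agent.Lib.MP_a38fe7_co
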