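import Mathlib
import Pool.Agent.Lib.MP_a38fe7_co.Main

/-!
# The comparison theorem, strong form

The multiplicities are arbitrary on the whole tail, they differ in its first part only.
-/

set_option autoImplicit false

namespace Pool.Agent.Lib.MP_a38fe7_co

open SimpleGraph

theorem main_class {U W : Type} [Finite U] [Finite W] (L M : ℕ) (hL : 2 * M + 2 ≤ L)
    (D : SimpleGraph U) (S : Set U) (R : SimpleGraph W) (ρ : W) (a b : ℕ → ℕ)
    (hab : ∀ i, a i ≠ b i → i ≤ M)
    (h : ∀ k ≤ M + 2, lsz k (deco L D S R ρ a) = lsz k (deco L D S R ρ b)) : a = b := by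
  classical
  by_contra hne
  have hsum := sum_eq_of_card L D S R ρ a b (h 0 (Nat.zero_le _))
  have hsumz : ∑ j ∈ Finset.range L, ((a j : ℤ) - b j) = 0 := by
    rw [Finset.sum_sub_distrib]
    have : (∑ j ∈ Finset.range L, (a j : ℤ)) = ∑ j ∈ Finset.range L, (b j : ℤ) := by
      exact_mod_cast hsum
    rw [this, sub_self]
  -- the exponent r
  have hex : ∃ r : ℕ, ∃ j, ¬ ((2 : ℤ) ^ (r + 1) ∣ (a j : ℤ) - b j) := by
    have : ∃ j, a j ≠ b j := by
      by_contra hcon
      push Not at hcon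
      exact hne (funext hcon)
    obtain ⟨j, hj⟩ := this
    refine ⟨((a j : ℤ) - b j).natAbs, j, fun hd => ?_⟩
    have h1 : ((a j : ℤ) - b j) = 0 := by
      refine Int.eq_zero_of_abs_lt_dvd hd ?_
      have h2 : (((a j : ℤ) - b j).natAbs : ℤ) < 2 ^ (((a j : ℤ) - b j).natAbs + 1) := by
        have h3 : ((a j : ℤ) - b j).natAbs < 2 ^ (((a j : ℤ) - b j).natAbs + 1) :=
          lt_trans (Nat.lt_succ_self _) (Nat.lt_two_pow_self)
        exact_mod_cast h3
      rwa [Int.natCast_natAbs] at h2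
    omega
  obtain ⟨r, hr, hrmin⟩ : ∃ r : ℕ, (∃ j, ¬ ((2 : ℤ) ^ (r + 1) ∣ (a j : ℤ) - b j)) ∧
      ∀ j, (2 : ℤ) ^ r ∣ (a j : ℤ) - b j := by
    refine ⟨Nat.find hex, Nat.find_spec hex, fun j => ?_⟩
    rcases hcase : Nat.find hex with _ | r'
    · simp
    · have := Nat.find_min hex (m := r') (by omega)
      push Not at this
      exact this j
  choose c hc using hrmin
  obtain ⟨i, hi, himin⟩ : ∃ i : ℕ, (¬ ((2 : ℤ) ^ (r + 1) ∣ (a i : ℤ) - b i)) ∧
      ∀ j < i, (2 : ℤ) ^ (r + 1) ∣ (a j : ℤ) - b j := by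
    refine ⟨Nat.find hr, Nat.find_spec hr, fun j hj => ?_⟩
    have := Nat.find_min hr hj
    push Not at this
    exact this
  have h2r : (2 : ℤ) ^ r ≠ 0 := pow_ne_zero _ (by norm_num)
  have hdvd : ∀ j, (2 : ℤ) ^ (r + 1) ∣ (a j : ℤ) - b j ↔ (2 : ℤ) ∣ c j := by
    intro j
    rw [hc j, pow_succ]
    exact mul_dvd_mul_iff_left h2r
  have hodd : ¬ (2 : ℤ) ∣ c i := fun hh => hi ((hdvd i).2 hh)
  have heven : ∀ j < i, (2 : ℤ) ∣ c j := fun j hj => (hdvd j).1 (himin j hj)
  have hi1 : i ≤ M := by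
    refine hab i fun h0 => hi ?_
    rw [h0]
    simp
  have hzero : ∀ j, M < j → (a j : ℤ) - b j = 0 := by
    intro j hj
    have h1 : a j = b j := by
      by_contra h0
      have := hab j h0
      omega
    rw [h1]
    simp
  have hiM : i < M := by
    by_contra hcon
    have hiM : i = M := by omega
    apply hi
    have h1 := Finset.add_sum_erase (Finset.range L) (fun j => (a j : ℤ) - b j)
      (Finset.mem_range.2 (by omega : i < L))
    rw [hsumz] at h1
    have h2 : (2 : ℤ) ^ (r + 1) ∣ ∑ j ∈ (Finset.range L).erase i, ((a j : ℤ) - b j) := by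
      refine Finset.dvd_sum fun j hj => ?_
      rcases lt_trichotomy j i with hlt | heq | hgt
      · exact himin j hlt
      · exact absurd heq (Finset.ne_of_mem_erase hj)
      · rw [hzero j (by omega)]
        exact dvd_zero _
    have h3 : (a i : ℤ) - b i = -∑ j ∈ (Finset.range L).erase i, ((a j : ℤ) - b j) := by
      linarith
    rw [h3]
    exact (dvd_neg).2 h2
  have hcz : ∀ j, M < j → c j = 0 := by
    intro j hj
    have := hc j
    rw [hzero j hj] at this
    exact (mul_eq_zero.1 this.symm).resolve_left h2r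
  have hcsum : ∑ j ∈ Finset.range L, c j = 0 := by
    have h1 : (2 : ℤ) ^ r * ∑ j ∈ Finset.range L, c j = 0 := by
      rw [Finset.mul_sum, ← hsumz]
      exact Finset.sum_congr rfl fun j _ => (hc j).symm
    exact (mul_eq_zero.1 h1).resolve_left h2r
  -- the groups
  set q : ℕ := 2 ^ (r + 1) with hqdef
  have hq : 0 < q := by positivity
  have hqz : (q : ℤ) = 2 ^ (r + 1) := by simp [hqdef]
  have hq2 : 2 ∣ q := ⟨2 ^ r, by rw [hqdef, pow_succ]; ring⟩
  let _ : Fintype U := Fintype.ofFinite U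
  set T := tail L D S with hT
  set k : ℕ := i + 2 with hk
  set B : ℕ → ℤ := fun j => if hj : j < L then
    (fk (k + 1) T R ρ (Pi.single (Sum.inl ⟨j, hj⟩) q) : ℤ) - fk (k + 1) T R ρ 0 else 0 with hBdef
  have hBv : ∀ (j : ℕ) (hj : j < L), B j =
      (fk (k + 1) T R ρ (Pi.single (Sum.inl ⟨j, hj⟩) q) : ℤ) - fk (k + 1) T R ρ 0 := by
    intro j hj
    simp only [hBdef]
    rw [dif_pos hj]
  have hmul : ∀ a b : ℕ → ℕ, (∀ j, (2 : ℤ) ^ r ∣ (a j : ℤ) - b j) →
      (q : ℤ) ∣ (fk (k + 1) T R ρ (2 • (mu L a : Fin L ⊕ U → ℕ)) : ℤ) -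
        fk (k + 1) T R ρ (2 • (mu L (fun j => min (a j) (b j)) : Fin L ⊕ U → ℕ)) -
        ∑ j ∈ Finset.range L, (((a j - b j) / 2 ^ r : ℕ) : ℤ) * B j := by
    intro a b hab
    have h1 := multi k T R ρ (mu L (fun j => min (a j) (b j)))
      (mu L (fun j => (a j - b j) / 2 ^ r)) q hq hq2
    have h2 : (2 • (mu L (fun j => min (a j) (b j)) : Fin L ⊕ U → ℕ) +
        q • (mu L (fun j => (a j - b j) / 2 ^ r) : Fin L ⊕ U → ℕ)) = 2 • mu L a := by
      funext v
      rcases v with j | u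
      · simp only [mu, Pi.add_apply, Pi.smul_apply, Sum.elim_inl, smul_eq_mul]
        have hd : 2 ^ r ∣ a j - b j := by
          rcases le_total (b j) (a j) with hle | hle
          · have := hab j
            rw [← Nat.cast_sub hle] at this
            exact_mod_cast this
          · rw [Nat.sub_eq_zero_of_le hle]
            exact dvd_zero _
        have h3 : q * ((a j - b j) / 2 ^ r) = 2 * (a j - b j) := by
          rw [hqdef, pow_succ, mul_comm (2 ^ r) 2, mul_assoc, Nat.mul_div_cancel' hd]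
        rw [h3]
        omega
      · simp [mu]
    rw [h2] at h1
    have h3 : ∑ v : Fin L ⊕ U, ((mu L (fun j => (a j - b j) / 2 ^ r) v : ℕ) : ℤ) *
        ((fk (k + 1) T R ρ (Pi.single v q) : ℤ) - fk (k + 1) T R ρ 0) =
        ∑ j ∈ Finset.range L, (((a j - b j) / 2 ^ r : ℕ) : ℤ) * B j := by
      rw [Fintype.sum_sum_type, ← Fin.sum_univ_eq_sum_range
        (fun j => (((a j - b j) / 2 ^ r : ℕ) : ℤ) * B j) L]
      simp only [mu, Sum.elim_inl, Sum.elim_inr, Nat.cast_zero, zero_mul, Finset.sum_const_zero,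
        add_zero]
      refine Finset.sum_congr rfl fun j _ => ?_
      rw [hBv j.1 j.2]
    rw [h3] at h1
    exact h1
  have hA := hmul a b (fun j => ⟨c j, hc j⟩)
  have hBb := hmul b a (fun j => ⟨-c j, by
    have := hc j
    rw [mul_neg, ← this]
    ring⟩)
  have hmin : (fun j => min (b j) (a j)) = (fun j => min (a j) (b j)) := by
    funext j
    exact min_comm _ _
  rw [hmin] at hBb
  have hfk : (fk (k + 1) T R ρ (2 • (mu L a : Fin L ⊕ U → ℕ)) : ℤ) =
      fk (k + 1) T R ρ (2 • (mu L b : Fin L ⊕ U → ℕ)) := by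
    have := h (k + 1) (by omega)
    rw [lsz_deco, lsz_deco] at this
    exact_mod_cast this
  have hfin : (q : ℤ) ∣ ∑ j ∈ Finset.range L, c j * B j := by
    have h1 := dvd_sub hBb hA
    rw [hfk] at h1
    have h2 : ∑ j ∈ Finset.range L, c j * B j =
        ∑ j ∈ Finset.range L, (((a j - b j) / 2 ^ r : ℕ) : ℤ) * B j -
        ∑ j ∈ Finset.range L, (((b j - a j) / 2 ^ r : ℕ) : ℤ) * B j := by
      rw [← Finset.sum_sub_distrib]
      refine Finset.sum_congr rfl fun j _ => ?_
      rw [← sub_mul]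
      rw [div_diff (a j) (b j) r (c j) (hc j)]
    rw [h2]
    have h3 : (∑ j ∈ Finset.range L, (((a j - b j) / 2 ^ r : ℕ) : ℤ) * B j -
        ∑ j ∈ Finset.range L, (((b j - a j) / 2 ^ r : ℕ) : ℤ) * B j) =
        ((fk (k + 1) T R ρ (2 • (mu L b : Fin L ⊕ U → ℕ)) : ℤ) -
        fk (k + 1) T R ρ (2 • (mu L (fun j => min (a j) (b j)) : Fin L ⊕ U → ℕ)) -
        ∑ j ∈ Finset.range L, (((b j - a j) / 2 ^ r : ℕ) : ℤ) * B j) -
        ((fk (k + 1) T R ρ (2 • (mu L b : Fin L ⊕ U → ℕ)) : ℤ) -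
        fk (k + 1) T R ρ (2 • (mu L (fun j => min (a j) (b j)) : Fin L ⊕ U → ℕ)) -
        ∑ j ∈ Finset.range L, (((a j - b j) / 2 ^ r : ℕ) : ℤ) * B j) := by
      ring
    rw [h3]
    exact h1
  rw [hqz] at hfin
  refine arith L r i c B ?_ (by omega) ?_ ?_ hcsum heven hodd hfin
  · intro j hj
    rw [hBv j hj]
    have := single_dvd k T R ρ (Sum.inl ⟨j, hj⟩ : Fin L ⊕ U) q hq
    rwa [hqz] at this
  · obtain ⟨E, hE, -, -, hE3⟩ := tail_shift L D S R ρ i q (by omega) hq (k + 1) (by omega)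
    obtain ⟨m, hm⟩ := hE3 (by omega)
    rw [hBv (i + 1) (by omega), hBv i (by omega)]
    refine ⟨m, ?_⟩
    rw [← hT] at hE
    rw [hE, hm, ← hqz]
    push_cast
    ring
  · intro j hj hij hcj
    have hjM : j ≤ M := by
      by_contra hcon
      exact hcj (hcz j (by omega))
    clear hcj
    induction j, hij using Nat.le_induction with
    | base =>
      simp
    | succ j hj1 ih =>
      have ih' := ih (by omega) (by omega)
      obtain ⟨E, hE, hE1, hE2, -⟩ := tail_shift L D S R ρ j q (by omega) hq (k + 1) (by omega)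
      rw [hBv (j + 1) (by omega)]
      rw [← hT] at hE
      rw [hE, ← hBv j (by omega)]
      have hdE : (2 : ℤ) ^ (r + 1) ∣ (E : ℤ) := by
        rcases Nat.lt_or_ge (k + 1) (j + 2) with hlt | hge
        · rw [hE1 hlt]
          simp
        · have heq : k + 1 = j + 2 := by
            have : i + 1 ≤ j := hj1
            omega
          rw [hE2 heq, hqz]
      have h5 : B j + (E : ℤ) - B (i + 1) = (B j - B (i + 1)) + E := by ring
      rw [h5]
      exact dvd_add ih' hdE

end Pool.Agent.Lib.MP_a38fe7_co
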