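import Mathlib
import Pool.Agent.Lib.MP_a38fe7_co.Defs
import Pool.Agent.Lib.MP_a38fe7_co.Main

section

/-!
# The number of multiplicity functions

The functions `a : ℕ → ℕ` with support in `{1, …, M}` and sum `M` are
`(2 M - 1).choose M = centralBinom M / 2` in number, and `4 ^ M ≤ 2 M * centralBinom M`
(`Nat.four_pow_le_two_mul_self_mul_centralBinom`).
Possible ways: `Sym (Fin M) M` has `Nat.multichoose M M = (2 M - 1).choose M` elements
(`Sym.card_sym_fin_eq_multichoose`, `Nat.multichoose_eq`), map `s` to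
`fun i => if 1 ≤ i ∧ i ≤ M then count of (i - 1) in s else 0` (injective);
or `Finset.finsuppAntidiag` (`Finset.card_finsuppAntidiag_nat_eq_choose`).
-/

set_option autoImplicit false

namespace Pool.Agent.Lib.MP_a38fe7_co

theorem exists_family (M : ℕ) (hM : 1 ≤ M) :
    ∃ F : Finset (ℕ → ℕ), (∀ a ∈ F, (∀ i, a i ≠ 0 → 1 ≤ i ∧ i ≤ M) ∧
      ∑ i ∈ Finset.range (M + 1), a i = M) ∧ 4 ^ M ≤ 4 * M * F.card := by
  refine ⟨((Finset.Icc 1 M).finsuppAntidiag M).map
    ⟨fun f : ℕ →₀ ℕ => (f : ℕ → ℕ), DFunLike.coe_injective⟩, ?_, ?_⟩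
  · intro a ha
    rw [Finset.mem_map] at ha
    obtain ⟨f, hf, rfl⟩ := ha
    rw [Finset.mem_finsuppAntidiag] at hf
    have h1 : ∀ i, f i ≠ 0 → 1 ≤ i ∧ i ≤ M := fun i hi =>
      Finset.mem_Icc.1 (hf.2 (Finsupp.mem_support_iff.2 hi))
    refine ⟨h1, ?_⟩
    show ∑ i ∈ Finset.range (M + 1), f i = M
    rw [← Finset.sum_subset (s₁ := Finset.Icc 1 M)]
    · exact hf.1
    · intro i hi
      rw [Finset.mem_Icc] at hi
      exact Finset.mem_range.2 (by omega)
    · intro i _ hi
      by_contra h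
      exact hi (Finset.mem_Icc.2 (h1 i h))
  · rw [Finset.card_map, Finset.card_finsuppAntidiag_nat_eq_choose, Nat.card_Icc]
    obtain ⟨m, rfl⟩ : ∃ m, M = m + 1 := ⟨M - 1, by omega⟩
    have h1 := Nat.four_pow_le_two_mul_self_mul_centralBinom (m + 1) (by omega)
    have h2 : (m + 1).centralBinom = 2 * (2 * m + 1).choose (m + 1) := by
      rw [Nat.centralBinom_eq_two_mul_choose, show 2 * (m + 1) = 2 * m + 1 + 1 by ring,
        Nat.choose_succ_succ, ← Nat.choose_symm_half]
      ring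
    have h3 : m + 1 + 1 - 1 + (m + 1) - 1 = 2 * m + 1 := by omega
    rw [h3]
    rw [h2] at h1
    calc 4 ^ (m + 1) ≤ 2 * (m + 1) * (2 * (2 * m + 1).choose (m + 1)) := h1
      _ = 4 * (m + 1) * (2 * m + 1).choose (m + 1) := by ring

end Pool.Agent.Lib.MP_a38fe7_co
end

section

/-!
# The graphs are trees

`att_isTree`: copies of a tree attached to a tree. Proof with `SimpleGraph.isTree_iff_connected_and_card`:
connected: every vertex of `C` is reachable from every other one inside `inl`, every vertex `inr (x, w)` is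
reachable from `inr (x, ρ)`, which is adjacent to `inl (ℓ x)`. Number of edges: the map
`E(C) ⊕ X × (E(R) ⊕ Unit) → E(att C R ρ ℓ)` is surjective, so `|E| ≤ |E(C)| + |X| (|E(R)| + 1)
= |V| - 1 + |X| |W|`; and `|V(att)| ≤ |E| + 1` for connected graphs
(`SimpleGraph.Connected.card_vert_le_card_edgeSet_add_one`).
`path_isTree`: connected (`pathGraph_connected`), and the edges are the `s(i, i + 1)`, at most `N` of them.
-/

set_option autoImplicit false

namespace Pool.Agent.Lib.MP_a38fe7_co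

open SimpleGraph

private theorem tree_of_surj {V T : Type} [Finite V] [Finite T] {G : SimpleGraph V}
    (hG : G.Connected) (f : T → G.edgeSet) (hf : Function.Surjective f)
    (h : Nat.card T + 1 ≤ Nat.card V) : G.IsTree := by
  rw [isTree_iff_connected_and_card]
  refine ⟨hG, ?_⟩
  have h1 := hG.card_vert_le_card_edgeSet_add_one
  have h2 := Nat.card_le_card_of_surjective f hf
  omega

theorem path_isTree (N : ℕ) : (pathGraph (N + 1)).IsTree := by
  refine tree_of_surj (T := Fin N) (pathGraph_connected N)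
    (fun i => ⟨s(i.castSucc, i.succ), by
      rw [mem_edgeSet, pathGraph_adj]
      left
      simp⟩) ?_ (by simp)
  rintro ⟨e, he⟩
  induction e with
  | _ x y =>
    rw [mem_edgeSet, pathGraph_adj] at he
    rcases he with h | h
    · refine ⟨⟨x.val, by have := y.isLt; omega⟩, Subtype.ext ?_⟩
      have h1 : (⟨x.val, by have := y.isLt; omega⟩ : Fin N).castSucc = x := Fin.ext rfl
      have h2 : (⟨x.val, by have := y.isLt; omega⟩ : Fin N).succ = y := Fin.ext h
      show s(_, _) = s(x, y)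
      rw [h1, h2]
    · refine ⟨⟨y.val, by have := x.isLt; omega⟩, Subtype.ext ?_⟩
      have h1 : (⟨y.val, by have := x.isLt; omega⟩ : Fin N).castSucc = y := Fin.ext rfl
      have h2 : (⟨y.val, by have := x.isLt; omega⟩ : Fin N).succ = x := Fin.ext h
      show s(_, _) = s(x, y)
      rw [h1, h2, Sym2.eq_swap]

private def attL {V W X : Type} (C : SimpleGraph V) (R : SimpleGraph W) (ρ : W) (ℓ : X → V) :
    C →g att C R ρ ℓ where
  toFun := Sum.inl
  map_rel' h := h

private def attR {V W X : Type} (C : SimpleGraph V) (R : SimpleGraph W) (ρ : W) (ℓ : X → V)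
    (x : X) : R →g att C R ρ ℓ where
  toFun w := Sum.inr (x, w)
  map_rel' h := ⟨rfl, h⟩

private theorem att_connected {V W X : Type} (C : SimpleGraph V)
    (R : SimpleGraph W) (ρ : W) (ℓ : X → V) (hC : C.Connected) (hR : R.Connected) :
    (att C R ρ ℓ).Connected := by
  obtain ⟨b⟩ := hC.nonempty
  have key : ∀ a, (att C R ρ ℓ).Reachable (Sum.inl b) a := by
    rintro (v | ⟨x, w⟩)
    · exact (hC.preconnected b v).map (attL C R ρ ℓ)
    · have h1 : (att C R ρ ℓ).Reachable (Sum.inl b) (Sum.inl (ℓ x)) :=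
        (hC.preconnected b (ℓ x)).map (attL C R ρ ℓ)
      have h2 : (att C R ρ ℓ).Adj (Sum.inl (ℓ x)) (Sum.inr (x, ρ)) := ⟨rfl, rfl⟩
      have h3 : (att C R ρ ℓ).Reachable (Sum.inr (x, ρ)) (Sum.inr (x, w)) :=
        (hR.preconnected ρ w).map (attR C R ρ ℓ x)
      exact (h1.trans h2.reachable).trans h3
  have : Nonempty (V ⊕ X × W) := ⟨Sum.inl b⟩
  exact ⟨fun a c => (key a).symm.trans (key c)⟩

private def attE {V W X : Type} (C : SimpleGraph V) (R : SimpleGraph W) (ρ : W) (ℓ : X → V) :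
    C.edgeSet ⊕ X × (R.edgeSet ⊕ Unit) → (att C R ρ ℓ).edgeSet
  | .inl e => (attL C R ρ ℓ).mapEdgeSet e
  | .inr (x, .inl e) => (attR C R ρ ℓ x).mapEdgeSet e
  | .inr (x, .inr _) => ⟨s(Sum.inl (ℓ x), Sum.inr (x, ρ)), ⟨rfl, rfl⟩⟩

private theorem attE_surj {V W X : Type} (C : SimpleGraph V) (R : SimpleGraph W) (ρ : W)
    (ℓ : X → V) : Function.Surjective (attE C R ρ ℓ) := by
  rintro ⟨e, he⟩
  induction e with
  | _ a b =>
    rw [mem_edgeSet] at he
    rcases a with v | ⟨x, w⟩ <;> rcases b with v' | ⟨x', w'⟩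
    · exact ⟨.inl ⟨s(v, v'), he⟩, rfl⟩
    · obtain ⟨h1, h2⟩ : ℓ x' = v ∧ w' = ρ := he
      subst h1 h2
      exact ⟨.inr (x', .inr ()), rfl⟩
    · obtain ⟨h1, h2⟩ : ℓ x = v' ∧ w = ρ := he
      subst h1 h2
      exact ⟨.inr (x, .inr ()), Subtype.ext Sym2.eq_swap⟩
    · obtain ⟨h1, h2⟩ : x = x' ∧ R.Adj w w' := he
      subst h1
      exact ⟨.inr (x, .inl ⟨s(w, w'), h2⟩), rfl⟩

theorem att_isTree {V W X : Type} [Finite V] [Finite W] [Finite X] (C : SimpleGraph V)
    (R : SimpleGraph W) (ρ : W) (ℓ : X → V) (hC : C.IsTree) (hR : R.IsTree) :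
    (att C R ρ ℓ).IsTree := by
  have h1 := (isTree_iff_connected_and_card.1 hC).2
  have h2 := (isTree_iff_connected_and_card.1 hR).2
  refine tree_of_surj (att_connected C R ρ ℓ hC.connected hR.connected) (attE C R ρ ℓ)
    (attE_surj C R ρ ℓ) ?_
  rw [Nat.card_sum, Nat.card_sum, Nat.card_prod, Nat.card_prod, Nat.card_sum, ← h1, ← h2]
  simp only [Nat.card_unique]
  omega

theorem bot_unit_isTree : (⊥ : SimpleGraph Unit).IsTree := IsTree.of_subsingleton

end Pool.Agent.Lib.MP_a38fe7_co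
end

section

/-!
# Exponentially many trees are distinguished
-/

set_option autoImplicit false

namespace Pool.Agent.Lib.MP_a38fe7_co

open SimpleGraph

/-- without `D` the tail is a path -/
def tailIso (L : ℕ) (S : Set Empty) : tail L (⊥ : SimpleGraph Empty) S ≃g pathGraph L where
  toEquiv := Equiv.sumEmpty (Fin L) Empty
  map_rel_iff' := by
    rintro (i | u) (j | v)
    · exact Iff.rfl
    · exact v.elim
    · exact u.elim
    · exact u.elim

theorem deco_isTree (L : ℕ) (hL : 1 ≤ L) (a : ℕ → ℕ) :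
    (deco L (⊥ : SimpleGraph Empty) ∅ (⊥ : SimpleGraph Unit) () a).IsTree := by
  obtain ⟨N, rfl⟩ : ∃ N, L = N + 1 := ⟨L - 1, by omega⟩
  exact att_isTree _ _ _ _ ((tailIso (N + 1) ∅).isTree_iff.2 (path_isTree N)) bot_unit_isTree

theorem deco_card (L : ℕ) (a : ℕ → ℕ) :
    Nat.card ((Fin L ⊕ Empty) ⊕ (Σ i : Fin L, Fin (2 * a i)) × Unit) =
      L + 2 * ∑ i ∈ Finset.range L, a i := by
  rw [Nat.card_sum, Nat.card_sum, Nat.card_prod, Nat.card_sigma]
  simp only [Nat.card_eq_fintype_card, Fintype.card_fin, Fintype.card_empty, add_zero,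
    Fintype.card_unit, mul_one]
  rw [Finset.mul_sum, ← Fin.sum_univ_eq_sum_range (fun i => 2 * a i) L]

/-- the tree on `Fin n` -/
theorem exists_fin (L : ℕ) (hL : 1 ≤ L) (a : ℕ → ℕ) (n : ℕ)
    (hn : L + 2 * ∑ i ∈ Finset.range L, a i = n) :
    ∃ G : SimpleGraph (Fin n), G.IsTree ∧
      ∀ k, lsz k G = lsz k (deco L (⊥ : SimpleGraph Empty) ∅ (⊥ : SimpleGraph Unit) () a) := by
  have hc : Nat.card ((Fin L ⊕ Empty) ⊕ (Σ i : Fin L, Fin (2 * a i)) × Unit) = n := by
    rw [deco_card, hn]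
  have e := Finite.equivFinOfCardEq hc
  have f := SimpleGraph.Iso.map e (deco L (⊥ : SimpleGraph Empty) ∅ (⊥ : SimpleGraph Unit) () a)
  exact ⟨_, f.isTree_iff.1 (deco_isTree L hL a), fun k => (lsz_iso k f).symm⟩

theorem count (n : ℕ) (hn : 1 ≤ n) :
    ∃ F : Finset (SimpleGraph (Fin n)), (∀ G ∈ F, G.IsTree) ∧
      (∀ G ∈ F, ∀ H ∈ F, (∀ k ≤ n / 4 + 2, lsz k G = lsz k H) → G = H) ∧
      2 ^ (n / 2) ≤ 4 * n * F.card := by
  classical
  rcases Nat.lt_or_ge n 6 with hlt | hge
  · obtain ⟨G, hG, -⟩ := exists_fin n hn (fun _ => 0) n (by simp)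
    refine ⟨{G}, ?_, ?_, ?_⟩
    · intro G' hG'
      rw [Finset.mem_singleton.1 hG']
      exact hG
    · intro G' hG' H' hH' _
      rw [Finset.mem_singleton.1 hG', Finset.mem_singleton.1 hH']
    · rw [Finset.card_singleton]
      interval_cases n <;> norm_num
  · obtain ⟨M, hM⟩ : ∃ M, M = (n - 2) / 4 := ⟨_, rfl⟩
    have hM1 : 1 ≤ M := by omega
    obtain ⟨L, hLdef⟩ : ∃ L, L = n - 2 * M := ⟨_, rfl⟩
    have hL : 2 * M + 2 ≤ L := by omega
    obtain ⟨F0, hF0, hcard⟩ := exists_family M hM1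
    have hsum : ∀ a ∈ F0, L + 2 * ∑ i ∈ Finset.range L, a i = n := by
      intro a ha
      have h1 : ∑ i ∈ Finset.range L, a i = ∑ i ∈ Finset.range (M + 1), a i := by
        symm
        apply Finset.sum_subset
        · intro x hx
          rw [Finset.mem_range] at hx ⊢
          omega
        · intro x _ hx
          by_contra h0
          have := (hF0 a ha).1 x h0
          rw [Finset.mem_range] at hx
          omega
      rw [h1, (hF0 a ha).2]
      omega
    have hex : ∀ a : ℕ → ℕ, ∃ G : SimpleGraph (Fin n), a ∈ F0 → G.IsTree ∧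
        ∀ k, lsz k G =
          lsz k (deco L (⊥ : SimpleGraph Empty) ∅ (⊥ : SimpleGraph Unit) () a) := by
      intro a
      by_cases ha : a ∈ F0
      · obtain ⟨G, hG⟩ := exists_fin L (by omega) a n (hsum a ha)
        exact ⟨G, fun _ => hG⟩
      · exact ⟨⊥, fun h => absurd h ha⟩
    choose g hg using hex
    have hinj : ∀ a ∈ F0, ∀ b ∈ F0, (∀ k ≤ n / 4 + 2, lsz k (g a) = lsz k (g b)) → a = b := by
      intro a ha b hb h
      refine main L M hL (⊥ : SimpleGraph Empty) ∅ (⊥ : SimpleGraph Unit) () a b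
        (hF0 a ha).1 (hF0 b hb).1 fun k hk => ?_
      rw [← (hg a ha).2 k, ← (hg b hb).2 k]
      exact h k (by omega)
    refine ⟨F0.image g, ?_, ?_, ?_⟩
    · intro G hG
      obtain ⟨a, ha, rfl⟩ := Finset.mem_image.1 hG
      exact (hg a ha).1
    · intro G hG H hH h
      obtain ⟨a, ha, rfl⟩ := Finset.mem_image.1 hG
      obtain ⟨b, hb, rfl⟩ := Finset.mem_image.1 hH
      rw [hinj a ha b hb h]
    · have hc : (F0.image g).card = F0.card := by
        apply Finset.card_image_of_injOn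
        intro a ha b hb hab
        exact hinj a ha b hb fun k _ => by
          have : g a = g b := hab
          rw [this]
      rw [hc]
      have h1 : n / 2 ≤ 2 * M + 2 := by omega
      calc 2 ^ (n / 2) ≤ 2 ^ (2 * M + 2) := Nat.pow_le_pow_right (by norm_num) h1
        _ = 4 * 4 ^ M := by
          rw [pow_add, pow_mul]
          norm_num
          ring
        _ ≤ 4 * (4 * M * F0.card) := Nat.mul_le_mul_left 4 hcard
        _ = 4 * (4 * M) * F0.card := by ring
        _ ≤ 4 * n * F0.card := by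
          apply Nat.mul_le_mul_right
          omega

end Pool.Agent.Lib.MP_a38fe7_co
end
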